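import Pool.Agent.H59.Hart.Cart

set_option autoImplicit false

open MeasureTheory Set Filter Topology
open scoped ENNReal NNReal

namespace H51.Hartogs

theorem fib_le2 {P Q : ℝ → ℝ≥0∞} {S S' : Set ℝ} (hS : MeasurableSet S) (hS' : MeasurableSet S')
    (h : ∀ y ∈ S', P y ≤ S.indicator Q y) : ∫⁻ y in S', P y ≤ ∫⁻ y in S, Q y := by
  rw [← lintegral_indicator hS]
  exact (setLIntegral_mono' hS' h).trans (setLIntegral_le_lintegral _ _)

theorem le_fib2 {P Q : ℝ → ℝ≥0∞} {S S' : Set ℝ} (hS : MeasurableSet S) (hSS : S ⊆ S')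
    (h : ∀ y ∈ S, Q y ≤ P y) : ∫⁻ y in S, Q y ≤ ∫⁻ y in S', P y :=
  (setLIntegral_mono' hS h).trans (lintegral_mono_set hSS)

theorem Phi_sq (r θ : ℝ) : (Phi r θ).1 ^ 2 + (Phi r θ).2 ^ 2 = r ^ 2 := by
  unfold Phi
  simp only
  have := Real.sin_sq_add_cos_sq θ
  nlinarith

theorem Phi_mem_angle {r θ : ℝ} (hr : 0 < r) (hθ : θ ∈ Ioo (-Real.pi) Real.pi)
    (h : Phi r θ ∈ om) : θ ∈ Ioo 0 (Real.pi / 2) ∧ r < 2 := by
  obtain ⟨h1, h2, h3, _⟩ := h
  rw [Phi_sq] at h3
  unfold Phi at h1 h2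
  simp only at h1 h2
  have hc : 0 < Real.cos θ := (mul_pos_iff_of_pos_left hr).1 h1
  have hs : 0 < Real.sin θ := (mul_pos_iff_of_pos_left hr).1 h2
  refine ⟨⟨?_, ?_⟩, by nlinarith⟩
  · by_contra hcon
    push Not at hcon
    have := Real.sin_nonpos_of_nonpos_of_neg_pi_le hcon hθ.1.le
    linarith
  · by_contra hcon
    push Not at hcon
    have := Real.cos_nonpos_of_pi_div_two_le_of_le hcon (by linarith [hθ.2, Real.pi_pos])
    linarith

theorem Phi_mem_ring {r θ : ℝ} (hr0 : 0 < r) (hr : 2 < r ^ 2) (hr2 : r < 2)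
    (hθ : θ ∈ Ioo 0 (Real.pi / 2)) : Phi r θ ∈ om := by
  have hc : 0 < Real.cos θ := Real.cos_pos_of_mem_Ioo ⟨by linarith [hθ.1, Real.pi_pos], hθ.2⟩
  have hs : 0 < Real.sin θ := Real.sin_pos_of_pos_of_lt_pi hθ.1 (by linarith [hθ.2, Real.pi_pos])
  refine ⟨mul_pos hr0 hc, mul_pos hr0 hs, by rw [Phi_sq]; nlinarith, ?_⟩
  unfold Phi
  simp only
  rcases lt_or_ge (Real.sin θ) (Real.cos θ) with h | h
  · left; exact mul_lt_mul_of_pos_left h hr0
  · right
    have h1 := Real.sin_sq_add_cos_sq θ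
    have h2 : 1 / 2 ≤ Real.sin θ ^ 2 := by nlinarith
    have h3 : 1 < (r * Real.sin θ) ^ 2 := by
      rw [mul_pow]; nlinarith
    by_contra hcon
    push Not at hcon
    have h4 : 0 < r * Real.sin θ := mul_pos hr0 hs
    nlinarith

/-- the quarter ring -/
def R3 : Set (ℝ × ℝ) := {p | 2 < p.1 ^ 2 + p.2 ^ 2}

theorem meas_R3 : MeasurableSet R3 :=
  measurableSet_lt measurable_const ((measurable_fst.pow_const 2).add (measurable_snd.pow_const 2))

theorem Phi_R3 (r θ : ℝ) : Phi r θ ∈ R3 ↔ 2 < r ^ 2 := by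
  unfold R3; rw [mem_ofPred_eq, Phi_sq]

theorem hasDerivAt_arc (r : ℝ) (t : ℝ) :
    HasDerivAt (fun t => Phi r t) ((-(r * Real.sin t), r * Real.cos t) : ℝ × ℝ) t := by
  unfold Phi
  apply HasDerivAt.prodMk
  · have := (Real.hasDerivAt_cos t).const_mul r
    rw [mul_neg] at this
    exact this
  · exact (Real.hasDerivAt_sin t).const_mul r

/-- the estimate on arcs, both cases -/
theorem arc_estimate {m n : ℤ} {Y : ℝ × ℝ → ℂ} (hY : ContDiffOn ℝ 1 Y om)
    (hcase : (n < 0 ∧ 0 ≤ m ∧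
        ∀ x : ℝ, 0 < x → x < 2 → Tendsto Y (𝓝[om] (x, (0 : ℝ))) (𝓝 0)) ∨
      (m < 0 ∧ 0 ≤ n ∧
        ∀ y : ℝ, 1 < y → y < 2 → Tendsto Y (𝓝[om] ((0 : ℝ), y)) (𝓝 0))) :
    ∫⁻ p, R3.indicator (dA m n Y) p ≤ 16 * ∫⁻ p, dE m n Y p := by
  have hmP : Measurable (R3.indicator (dA m n Y)) := (measurable_dA hY).indicator meas_R3
  have hmE : Measurable (dE m n Y) := measurable_dE hY
  rw [pol_r hmP, pol_r hmE, ← lintegral_const_mul' _ _ (by simp)]
  apply setLIntegral_mono' measurableSet_Ioi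
  intro r hr
  have hr0 : 0 < r := hr
  by_cases hr3 : 2 < r ^ 2 ∧ r < 2
  swap
  · have h0 : ∀ θ ∈ Ioo (-Real.pi) Real.pi,
        ENNReal.ofReal r * R3.indicator (dA m n Y) (Phi r θ) = 0 := by
      intro θ hθ
      by_cases hR : Phi r θ ∈ R3
      · rw [indicator_of_mem hR]
        have : Phi r θ ∉ om := by
          intro ho
          exact hr3 ⟨(Phi_R3 r θ).1 hR, (Phi_mem_angle hr0 hθ ho).2⟩
        rw [dA_zero this, mul_zero]
      · rw [indicator_of_notMem hR, mul_zero]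
    rw [setLIntegral_congr_fun measurableSet_Ioo h0]
    simp
  obtain ⟨hr3, hr2⟩ := hr3
  have hpi := Real.pi_pos
  have hpi4 := Real.pi_lt_four
  have hmem : ∀ θ ∈ Ioo 0 (Real.pi / 2), Phi r θ ∈ om := fun θ hθ => Phi_mem_ring hr0 hr3 hr2 hθ
  obtain ⟨hd1, hd2, hd3⟩ := path_data hY (γ := fun t => Phi r t)
    (γ' := fun t => ((-(r * Real.sin t), r * Real.cos t) : ℝ × ℝ))
    (S := Ioo 0 (Real.pi / 2)) (hasDerivAt_arc r) (by fun_prop) hmem
  have hVpos : ∀ t ∈ Ioo 0 (Real.pi / 2), 0 < V m n (Phi r t) :=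
    fun t ht => V_pos m n (hmem t ht).1 (hmem t ht).2.1
  set F : ℝ → ℝ := fun t => ‖fderiv ℝ Y (Phi r t) (1, 0)‖ ^ 2 + ‖fderiv ℝ Y (Phi r t) (0, 1)‖ ^ 2
    with hF
  have hF0 : ∀ t, 0 ≤ F t := fun t => by rw [hF]; positivity
  have he : ∀ t ∈ Ioo 0 (Real.pi / 2), ENNReal.ofReal
      (‖fderiv ℝ Y (Phi r t) (-(r * Real.sin t), r * Real.cos t)‖ ^ 2 * (r * V m n (Phi r t))) ≤
      4 * ENNReal.ofReal (F t * (r * V m n (Phi r t))) := by
    intro t ht
    have h4 : (4 : ℝ≥0∞) = ENNReal.ofReal 4 := by simp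
    have h5 : 4 * (F t * (r * V m n (Phi r t))) = (4 * F t) * (r * V m n (Phi r t)) := by ring
    rw [h4, ← ENNReal.ofReal_mul (by norm_num), h5]
    apply ENNReal.ofReal_le_ofReal
    apply mul_le_mul_of_nonneg_right _ (mul_pos hr0 (hVpos t ht)).le
    refine (hd3 t).trans ?_
    apply mul_le_mul_of_nonneg_right _ (hF0 t)
    have := Real.sin_sq_add_cos_sq t
    simp only
    nlinarith
  have hsin : ∀ t ∈ Ioo 0 (Real.pi / 2), 0 < Real.sin t := fun t ht =>
    Real.sin_pos_of_pos_of_lt_pi ht.1 (by linarith [ht.2])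
  have hcos : ∀ t ∈ Ioo 0 (Real.pi / 2), 0 < Real.cos t := fun t ht =>
    Real.cos_pos_of_mem_Ioo ⟨by linarith [ht.1], ht.2⟩
  have hsinm : ∀ s ∈ Ioo 0 (Real.pi / 2), ∀ t ∈ Ioo 0 (Real.pi / 2), s ≤ t →
      Real.sin s ≤ Real.sin t := fun s hs t ht hst =>
    Real.sin_le_sin_of_le_of_le_pi_div_two (by linarith [hs.1]) ht.2.le hst
  have hcosm : ∀ s ∈ Ioo 0 (Real.pi / 2), ∀ t ∈ Ioo 0 (Real.pi / 2), s ≤ t →
      Real.cos t ≤ Real.cos s := fun s hs t ht hst =>
    Real.cos_le_cos_of_nonneg_of_le_pi hs.1.le (by linarith [ht.2]) hst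
  have hz : ∫⁻ t in Ioo 0 (Real.pi / 2), ENNReal.ofReal (‖Y (Phi r t)‖ ^ 2 * (r * V m n (Phi r t)))
      ≤ ENNReal.ofReal ((Real.pi / 2 - 0) ^ 2) *
        ∫⁻ t in Ioo 0 (Real.pi / 2), 4 * ENNReal.ofReal (F t * (r * V m n (Phi r t))) := by
    rcases hcase with ⟨hn, hm, hb⟩ | ⟨hm, hn, hb⟩
    · refine zero_left (G := fun t => r * V m n (Phi r t)) hd1 hd2
        (fun t ht => (mul_pos hr0 (hVpos t ht)).le) ?_ he ?_
      · intro s hs t ht hst
        show r * ((r * Real.cos t) ^ (2 * m + 1) * (r * Real.sin t) ^ (2 * n + 1)) ≤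
          r * ((r * Real.cos s) ^ (2 * m + 1) * (r * Real.sin s) ^ (2 * n + 1))
        apply mul_le_mul_of_nonneg_left _ hr0.le
        apply mul_le_mul
        · exact zpow_mono' (mul_pos hr0 (hcos t ht))
            (mul_le_mul_of_nonneg_left (hcosm s hs t ht hst) hr0.le) (by omega)
        · exact zpow_anti' (mul_pos hr0 (hsin s hs))
            (mul_le_mul_of_nonneg_left (hsinm s hs t ht hst) hr0.le) (by omega)
        · exact (zpow_pos (mul_pos hr0 (hsin t ht)) _).le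
        · exact (zpow_pos (mul_pos hr0 (hcos s hs)) _).le
      · intro ε hε
        have h1 : Tendsto (fun s : ℝ => Phi r s) (𝓝[>] 0) (𝓝[om] (r, (0 : ℝ))) := by
          rw [tendsto_nhdsWithin_iff]
          constructor
          · apply Tendsto.mono_left _ nhdsWithin_le_nhds
            have : Continuous (fun s : ℝ => Phi r s) := by unfold Phi; fun_prop
            have h2 := this.tendsto 0
            have h3 : Phi r 0 = (r, 0) := by unfold Phi; simp
            rw [h3] at h2; exact h2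
          · filter_upwards [Ioo_mem_nhdsGT (show (0:ℝ) < Real.pi / 2 by positivity)] with s hs
              using hmem s hs
        have h2 := (hb r hr0 hr2).comp h1
        have h3 : ∀ᶠ s in 𝓝[>] (0 : ℝ), ‖Y (Phi r s)‖ < ε := by
          have := h2.norm
          rw [norm_zero] at this
          exact this.eventually_lt_const hε
        exact h3.frequently
    · refine zero_right (G := fun t => r * V m n (Phi r t)) hd1 hd2
        (fun t ht => (mul_pos hr0 (hVpos t ht)).le) ?_ he ?_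
      · intro s hs t ht hst
        show r * ((r * Real.cos s) ^ (2 * m + 1) * (r * Real.sin s) ^ (2 * n + 1)) ≤
          r * ((r * Real.cos t) ^ (2 * m + 1) * (r * Real.sin t) ^ (2 * n + 1))
        apply mul_le_mul_of_nonneg_left _ hr0.le
        apply mul_le_mul
        · exact zpow_anti' (mul_pos hr0 (hcos t ht))
            (mul_le_mul_of_nonneg_left (hcosm s hs t ht hst) hr0.le) (by omega)
        · exact zpow_mono' (mul_pos hr0 (hsin s hs))
            (mul_le_mul_of_nonneg_left (hsinm s hs t ht hst) hr0.le) (by omega)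
        · exact (zpow_pos (mul_pos hr0 (hsin s hs)) _).le
        · exact (zpow_pos (mul_pos hr0 (hcos t ht)) _).le
      · intro ε hε
        have h1 : Tendsto (fun s : ℝ => Phi r s) (𝓝[<] (Real.pi / 2)) (𝓝[om] ((0 : ℝ), r)) := by
          rw [tendsto_nhdsWithin_iff]
          constructor
          · apply Tendsto.mono_left _ nhdsWithin_le_nhds
            have : Continuous (fun s : ℝ => Phi r s) := by unfold Phi; fun_prop
            have h2 := this.tendsto (Real.pi / 2)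
            have h3 : Phi r (Real.pi / 2) = (0, r) := by unfold Phi; simp
            rw [h3] at h2; exact h2
          · filter_upwards [Ioo_mem_nhdsLT (show (0:ℝ) < Real.pi / 2 by positivity)] with s hs
              using hmem s hs
        have h2 := (hb r (by nlinarith) hr2).comp h1
        have h3 : ∀ᶠ s in 𝓝[<] (Real.pi / 2), ‖Y (Phi r s)‖ < ε := by
          have := h2.norm
          rw [norm_zero] at this
          exact this.eventually_lt_const hε
        exact h3.frequently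
  have hsubθ : Ioo 0 (Real.pi / 2) ⊆ Ioo (-Real.pi) Real.pi :=
    fun t ht => ⟨by linarith [ht.1], by linarith [ht.2]⟩
  calc ∫⁻ θ in Ioo (-Real.pi) Real.pi, ENNReal.ofReal r * R3.indicator (dA m n Y) (Phi r θ)
      ≤ ∫⁻ t in Ioo 0 (Real.pi / 2),
          ENNReal.ofReal (‖Y (Phi r t)‖ ^ 2 * (r * V m n (Phi r t))) := by
        apply fib_le2 measurableSet_Ioo measurableSet_Ioo
        intro θ hθ
        rw [indicator_of_mem ((Phi_R3 r θ).2 hr3)]
        by_cases ho : Phi r θ ∈ om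
        · rw [indicator_of_mem (Phi_mem_angle hr0 hθ ho).1, dA_eq ho,
            ← ENNReal.ofReal_mul hr0.le]
          apply le_of_eq; congr 1; ring
        · rw [dA_zero ho, mul_zero]; exact zero_le
    _ ≤ _ := hz
    _ = ENNReal.ofReal ((Real.pi / 2 - 0) ^ 2) * (4 *
        ∫⁻ t in Ioo 0 (Real.pi / 2), ENNReal.ofReal (F t * (r * V m n (Phi r t)))) := by
        rw [lintegral_const_mul' _ _ (by simp)]
    _ ≤ 4 * (4 * ∫⁻ θ in Ioo (-Real.pi) Real.pi, ENNReal.ofReal r * dE m n Y (Phi r θ)) := by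
        apply mul_le_mul'
        · have : ENNReal.ofReal 4 = 4 := by simp
          rw [← this]
          apply ENNReal.ofReal_le_ofReal
          nlinarith
        · apply mul_le_mul' le_rfl
          apply le_fib2 measurableSet_Ioo hsubθ
          intro θ hθ
          rw [dE_eq (hmem θ hθ), ← ENNReal.ofReal_mul hr0.le]
          apply le_of_eq; congr 1; rw [hF]; ring
    _ = 16 * ∫⁻ θ in Ioo (-Real.pi) Real.pi, ENNReal.ofReal r * dE m n Y (Phi r θ) := by
        rw [← mul_assoc]; norm_num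

end H51.Hartogs
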