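import Pool.Agent.H59.Hart.Dom

set_option autoImplicit false

open MeasureTheory Set Filter Topology
open scoped ENNReal NNReal

namespace H51.Hartogs

theorem zpow_mono' {a b : ℝ} {k : ℤ} (ha : 0 < a) (hab : a ≤ b) (hk : 0 ≤ k) : a ^ k ≤ b ^ k :=
  zpow_le_zpow_left₀ hk ha.le hab

theorem zpow_anti' {a b : ℝ} {k : ℤ} (ha : 0 < a) (hab : a ≤ b) (hk : k ≤ 0) : b ^ k ≤ a ^ k := by
  have h1 : a ^ (-k) ≤ b ^ (-k) := zpow_mono' ha hab (by omega)
  rw [zpow_neg, zpow_neg] at h1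
  exact (inv_le_inv₀ (zpow_pos ha k) (zpow_pos (ha.trans_le hab) k)).1 h1

theorem dA_eq {m n : ℤ} {Y : ℝ × ℝ → ℂ} {p : ℝ × ℝ} (hp : p ∈ om) :
    dA m n Y p = ENNReal.ofReal (‖Y p‖ ^ 2 * V m n p) := by
  unfold dA; rw [indicator_of_mem hp]

theorem dA_zero {m n : ℤ} {Y : ℝ × ℝ → ℂ} {p : ℝ × ℝ} (hp : p ∉ om) : dA m n Y p = 0 := by
  unfold dA; rw [indicator_of_notMem hp]

theorem dE_eq {m n : ℤ} {Y : ℝ × ℝ → ℂ} {p : ℝ × ℝ} (hp : p ∈ om) :
    dE m n Y p = ENNReal.ofReal
    ((‖fderiv ℝ Y p (1, 0)‖ ^ 2 + ‖fderiv ℝ Y p (0, 1)‖ ^ 2) * V m n p) := by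
  unfold dE; rw [indicator_of_mem hp]

/-- the region reached by vertical lines -/
def R1 : Set (ℝ × ℝ) := {p | p.2 < p.1 ∨ 1 < p.1}

/-- the region reached by horizontal lines -/
def R2 : Set (ℝ × ℝ) := {p | 1 < p.2}

theorem meas_R1 : MeasurableSet R1 :=
  (measurableSet_lt measurable_snd measurable_fst).union
    (measurableSet_lt measurable_const measurable_fst)

theorem meas_R2 : MeasurableSet R2 := measurableSet_lt measurable_const measurable_snd

theorem L1 {m n : ℤ} {Y : ℝ × ℝ → ℂ} (hY : ContDiffOn ℝ 1 Y om) (hn : n < 0)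
    (hb : ∀ x : ℝ, 0 < x → x < 2 → Tendsto Y (𝓝[om] (x, (0 : ℝ))) (𝓝 0)) :
    ∫⁻ p, R1.indicator (dA m n Y) p ≤ 4 * ∫⁻ p, dE m n Y p := by
  have hmP : Measurable (R1.indicator (dA m n Y)) := (measurable_dA hY).indicator meas_R1
  have hmE : Measurable (dE m n Y) := measurable_dE hY
  rw [cart_x hmP, cart_x hmE, ← lintegral_const_mul' _ _ (by simp)]
  apply lintegral_mono
  intro x
  show ∫⁻ y, R1.indicator (dA m n Y) (x, y) ≤ 4 * ∫⁻ y, dE m n Y (x, y)
  by_cases hx : 0 < x ∧ x < 2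
  swap
  · have h0 : ∀ y, R1.indicator (dA m n Y) (x, y) = 0 := by
      intro y
      have : (x, y) ∉ om := by
        rintro ⟨h1, h2, h3, _⟩
        simp only at h1 h2 h3
        apply hx
        refine ⟨h1, ?_⟩
        nlinarith
      by_cases hR : (x, y) ∈ R1
      · rw [indicator_of_mem hR, dA_zero this]
      · rw [indicator_of_notMem hR]
    simp [h0]
  obtain ⟨hx0, hx2⟩ := hx
  -- the height of the slice
  set h : ℝ := if x ≤ 1 then x else √(4 - x ^ 2) with hh
  have hh0 : 0 < h := by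
    rw [hh]; split_ifs with h1
    · exact hx0
    · exact Real.sqrt_pos.2 (by nlinarith)
  have hh2 : h ≤ 2 := by
    rw [hh]; split_ifs with h1
    · linarith
    · rw [Real.sqrt_le_left (by norm_num)]; nlinarith
  have hslice : ∀ y, (x, y) ∈ om → (x, y) ∈ R1 → y ∈ Ioo 0 h := by
    rintro y ⟨h1, h2, h3, h4⟩ h5
    simp only at h1 h2 h3 h4
    refine ⟨h2, ?_⟩
    rw [hh]; split_ifs with h6
    · rcases h5 with h5 | h5
      · exact h5
      · simp only at h5; linarith
    · exact Real.lt_sqrt_of_sq_lt (by linarith)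
  have hmem : ∀ y ∈ Ioo 0 h, (x, y) ∈ om := by
    rintro y ⟨h1, h2⟩
    by_cases h6 : x ≤ 1
    · have h7 : h = x := by rw [hh, if_pos h6]
      rw [h7] at h2
      exact ⟨hx0, h1, by simp only; nlinarith, Or.inl h2⟩
    · have h7 : h = √(4 - x ^ 2) := by rw [hh, if_neg h6]
      rw [h7] at h2
      have h8 : y ^ 2 < 4 - x ^ 2 := (Real.lt_sqrt h1.le).1 h2
      refine ⟨hx0, h1, by simp only; linarith, ?_⟩
      simp only
      rcases lt_or_ge y x with h9 | h9
      · exact Or.inl h9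
      · right; push Not at h6; linarith
  obtain ⟨hd1, hd2, hd3⟩ := path_data hY (γ := fun t => (x, t)) (γ' := fun _ => ((0 : ℝ), (1 : ℝ)))
    (S := Ioo 0 h) (fun t => (hasDerivAt_const t x).prodMk (hasDerivAt_id t))
    continuous_const hmem
  have hpos : ∀ t ∈ Ioo 0 h, 0 < V m n (x, t) := fun t ht => V_pos m n hx0 ht.1
  have hz := zero_left (f := fun t => Y (x, t)) (G := fun t => V m n (x, t))
    (e := fun t => ENNReal.ofReal ((‖fderiv ℝ Y (x, t) (1, 0)‖ ^ 2 +
      ‖fderiv ℝ Y (x, t) (0, 1)‖ ^ 2) * V m n (x, t))) hd1 hd2 (fun t ht => (hpos t ht).le)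
    (by
      intro s hs t ht hst
      show x ^ (2 * m + 1) * t ^ (2 * n + 1) ≤ x ^ (2 * m + 1) * s ^ (2 * n + 1)
      exact mul_le_mul_of_nonneg_left (zpow_anti' hs.1 hst (by omega)) (by positivity))
    (by
      intro t ht
      apply ENNReal.ofReal_le_ofReal
      apply mul_le_mul_of_nonneg_right _ (hpos t ht).le
      have := hd3 t
      simp)
    (by
      intro ε hε
      have h1 : Tendsto (fun s : ℝ => (x, s)) (𝓝[>] 0) (𝓝[om] (x, (0 : ℝ))) := by
        rw [tendsto_nhdsWithin_iff]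
        constructor
        · apply Tendsto.mono_left _ nhdsWithin_le_nhds
          exact (continuous_const.prodMk continuous_id).tendsto 0
        · filter_upwards [Ioo_mem_nhdsGT hh0] with s hs using hmem s hs
      have h2 := (hb x hx0 hx2).comp h1
      have h3 : ∀ᶠ s in 𝓝[>] (0 : ℝ), ‖Y (x, s)‖ < ε := by
        have := h2.norm
        rw [norm_zero] at this
        exact this.eventually_lt_const hε
      exact h3.frequently)
  calc ∫⁻ y, R1.indicator (dA m n Y) (x, y)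
      ≤ ∫⁻ y in Ioo 0 h, ENNReal.ofReal (‖Y (x, y)‖ ^ 2 * V m n (x, y)) := by
        apply fib_le measurableSet_Ioo
        intro y
        by_cases hR : (x, y) ∈ R1
        · rw [indicator_of_mem hR]
          by_cases ho : (x, y) ∈ om
          · rw [indicator_of_mem (hslice y ho hR), dA_eq ho]
          · rw [dA_zero ho]; exact zero_le
        · rw [indicator_of_notMem hR]; exact zero_le
    _ ≤ _ := hz
    _ ≤ 4 * ∫⁻ y, dE m n Y (x, y) := by
        apply mul_le_mul'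
        · have : ENNReal.ofReal 4 = 4 := by simp
          rw [← this]
          apply ENNReal.ofReal_le_ofReal
          nlinarith
        · apply le_fib measurableSet_Ioo
          intro y hy
          rw [dE_eq (hmem y hy)]

theorem L2 {m n : ℤ} {Y : ℝ × ℝ → ℂ} (hY : ContDiffOn ℝ 1 Y om) (hm : m < 0)
    (hb : ∀ y : ℝ, 1 < y → y < 2 → Tendsto Y (𝓝[om] ((0 : ℝ), y)) (𝓝 0)) :
    ∫⁻ p, R2.indicator (dA m n Y) p ≤ 4 * ∫⁻ p, dE m n Y p := by
  have hmP : Measurable (R2.indicator (dA m n Y)) := (measurable_dA hY).indicator meas_R2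
  have hmE : Measurable (dE m n Y) := measurable_dE hY
  rw [cart_y hmP, cart_y hmE, ← lintegral_const_mul' _ _ (by simp)]
  apply lintegral_mono
  intro y
  show ∫⁻ x, R2.indicator (dA m n Y) (x, y) ≤ 4 * ∫⁻ x, dE m n Y (x, y)
  by_cases hy : 1 < y ∧ y < 2
  swap
  · have h0 : ∀ x, R2.indicator (dA m n Y) (x, y) = 0 := by
      intro x
      by_cases hR : (x, y) ∈ R2
      · have : (x, y) ∉ om := by
          rintro ⟨h1, h2, h3, _⟩
          simp only at h1 h2 h3
          apply hy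
          refine ⟨hR, ?_⟩
          nlinarith
        rw [indicator_of_mem hR, dA_zero this]
      · rw [indicator_of_notMem hR]
    simp [h0]
  obtain ⟨hy1, hy2⟩ := hy
  set h : ℝ := √(4 - y ^ 2) with hh
  have hh0 : 0 < h := Real.sqrt_pos.2 (by nlinarith)
  have hh2 : h ≤ 2 := by
    rw [hh, Real.sqrt_le_left (by norm_num)]; nlinarith
  have hslice : ∀ x, (x, y) ∈ om → x ∈ Ioo 0 h := by
    rintro x ⟨h1, h2, h3, h4⟩
    simp only at h1 h2 h3 h4
    exact ⟨h1, Real.lt_sqrt_of_sq_lt (by linarith)⟩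
  have hmem : ∀ x ∈ Ioo 0 h, (x, y) ∈ om := by
    rintro x ⟨h1, h2⟩
    have h8 : x ^ 2 < 4 - y ^ 2 := (Real.lt_sqrt h1.le).1 h2
    exact ⟨h1, by simp only; linarith, by simp only; linarith, Or.inr hy1⟩
  obtain ⟨hd1, hd2, hd3⟩ := path_data hY (γ := fun t => (t, y)) (γ' := fun _ => ((1 : ℝ), (0 : ℝ)))
    (S := Ioo 0 h) (fun t => (hasDerivAt_id t).prodMk (hasDerivAt_const t y))
    continuous_const hmem
  have hpos : ∀ t ∈ Ioo 0 h, 0 < V m n (t, y) := fun t ht => V_pos m n ht.1 (by simp only; linarith)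
  have hy0 : 0 < y := by linarith
  have hz := zero_left (f := fun t => Y (t, y)) (G := fun t => V m n (t, y))
    (e := fun t => ENNReal.ofReal ((‖fderiv ℝ Y (t, y) (1, 0)‖ ^ 2 +
      ‖fderiv ℝ Y (t, y) (0, 1)‖ ^ 2) * V m n (t, y))) hd1 hd2 (fun t ht => (hpos t ht).le)
    (by
      intro s hs t ht hst
      show t ^ (2 * m + 1) * y ^ (2 * n + 1) ≤ s ^ (2 * m + 1) * y ^ (2 * n + 1)
      exact mul_le_mul_of_nonneg_right (zpow_anti' hs.1 hst (by omega)) (by positivity))
    (by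
      intro t ht
      apply ENNReal.ofReal_le_ofReal
      apply mul_le_mul_of_nonneg_right _ (hpos t ht).le
      have := hd3 t
      simp)
    (by
      intro ε hε
      have h1 : Tendsto (fun s : ℝ => (s, y)) (𝓝[>] 0) (𝓝[om] ((0 : ℝ), y)) := by
        rw [tendsto_nhdsWithin_iff]
        constructor
        · apply Tendsto.mono_left _ nhdsWithin_le_nhds
          exact (continuous_id.prodMk continuous_const).tendsto 0
        · filter_upwards [Ioo_mem_nhdsGT hh0] with s hs using hmem s hs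
      have h2 := (hb y hy1 hy2).comp h1
      have h3 : ∀ᶠ s in 𝓝[>] (0 : ℝ), ‖Y (s, y)‖ < ε := by
        have := h2.norm
        rw [norm_zero] at this
        exact this.eventually_lt_const hε
      exact h3.frequently)
  calc ∫⁻ x, R2.indicator (dA m n Y) (x, y)
      ≤ ∫⁻ x in Ioo 0 h, ENNReal.ofReal (‖Y (x, y)‖ ^ 2 * V m n (x, y)) := by
        apply fib_le measurableSet_Ioo
        intro x
        by_cases hR : (x, y) ∈ R2
        · rw [indicator_of_mem hR]
          by_cases ho : (x, y) ∈ om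
          · rw [indicator_of_mem (hslice x ho), dA_eq ho]
          · rw [dA_zero ho]; exact zero_le
        · rw [indicator_of_notMem hR]; exact zero_le
    _ ≤ _ := hz
    _ ≤ 4 * ∫⁻ x, dE m n Y (x, y) := by
        apply mul_le_mul'
        · have : ENNReal.ofReal 4 = 4 := by simp
          rw [← this]
          apply ENNReal.ofReal_le_ofReal
          nlinarith
        · apply le_fib measurableSet_Ioo
          intro x hx
          rw [dE_eq (hmem x hx)]

/-- target region of the horizontal transfer -/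
def R5 : Set (ℝ × ℝ) := {p | 1 < p.2 ∧ p.2 ^ 2 ≤ 2 ∧ p.1 ≤ 1}

theorem meas_R5 : MeasurableSet R5 := by
  unfold R5
  refine (measurableSet_lt measurable_const measurable_snd).inter
    ((measurableSet_le (measurable_snd.pow_const 2) measurable_const).inter
    (measurableSet_le measurable_fst measurable_const))

theorem L5 {m n : ℤ} {Y : ℝ × ℝ → ℂ} (hY : ContDiffOn ℝ 1 Y om) (hm : 0 ≤ m) :
    ENNReal.ofReal (2 / 5) * ∫⁻ p, R5.indicator (dA m n Y) p ≤
      2 * (∫⁻ p, R1.indicator (dA m n Y) p) + 4 * ∫⁻ p, dE m n Y p := by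
  have hmP : Measurable (R5.indicator (dA m n Y)) := (measurable_dA hY).indicator meas_R5
  have hmQ : Measurable (R1.indicator (dA m n Y)) := (measurable_dA hY).indicator meas_R1
  have hmE : Measurable (dE m n Y) := measurable_dE hY
  have hsw : ∀ {P : ℝ × ℝ → ℝ≥0∞}, Measurable P → Measurable (fun y => ∫⁻ x, P (x, y)) := by
    intro P hP
    exact Measurable.lintegral_prod_left' hP
  rw [cart_y hmP, cart_y hmQ, cart_y hmE]
  apply int3 (hsw hmP) (hsw hmQ) (hsw hmE)
  apply Eventually.of_forall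
  intro y
  by_cases hy : 1 < y ∧ y ^ 2 ≤ 2
  swap
  · have h0 : ∀ x, R5.indicator (dA m n Y) (x, y) = 0 := by
      intro x
      have hR : (x, y) ∉ R5 := fun h => hy ⟨h.1, h.2.1⟩
      rw [indicator_of_notMem hR]
    simp [h0]
  obtain ⟨hy1, hy2⟩ := hy
  have hmem : ∀ x ∈ Ioo (0 : ℝ) (7 / 5), (x, y) ∈ om := by
    rintro x ⟨h1, h2⟩
    exact ⟨h1, by simp only; linarith, by simp only; nlinarith, Or.inr hy1⟩
  obtain ⟨hd1, hd2, hd3⟩ := path_data hY (γ := fun t => (t, y)) (γ' := fun _ => ((1 : ℝ), (0 : ℝ)))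
    (S := Ioo 0 (7 / 5)) (fun t => (hasDerivAt_id t).prodMk (hasDerivAt_const t y))
    continuous_const hmem
  have hpos : ∀ t ∈ Ioo (0 : ℝ) (7 / 5), 0 < V m n (t, y) :=
    fun t ht => V_pos m n ht.1 (by simp only; linarith)
  have hy0 : 0 < y := by linarith
  have hz := transfer (f := fun t => Y (t, y)) (G := fun t => V m n (t, y)) (a := 0) (b := 7 / 5)
    (c := 1)
    (e := fun t => ENNReal.ofReal ((‖fderiv ℝ Y (t, y) (1, 0)‖ ^ 2 +
      ‖fderiv ℝ Y (t, y) (0, 1)‖ ^ 2) * V m n (t, y))) (by norm_num) (by norm_num) hd1 hd2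
      (fun t ht => (hpos t ht).le)
    (by
      intro s hs t ht hst
      show s ^ (2 * m + 1) * y ^ (2 * n + 1) ≤ t ^ (2 * m + 1) * y ^ (2 * n + 1)
      exact mul_le_mul_of_nonneg_right (zpow_mono' hs.1 hst (by omega)) (by positivity))
    (by
      intro t ht
      apply ENNReal.ofReal_le_ofReal
      apply mul_le_mul_of_nonneg_right _ (hpos t ht).le
      have := hd3 t
      simp)
  have e1 : (7 / 5 - 1 : ℝ) = 2 / 5 := by norm_num
  rw [e1] at hz
  have hE : ∫⁻ t in Ioo (0 : ℝ) (7 / 5), ENNReal.ofReal ((‖fderiv ℝ Y (t, y) (1, 0)‖ ^ 2 +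
      ‖fderiv ℝ Y (t, y) (0, 1)‖ ^ 2) * V m n (t, y)) ≤ ∫⁻ x, dE m n Y (x, y) := by
    apply le_fib measurableSet_Ioo
    intro x hx
    rw [dE_eq (hmem x hx)]
  have hQ : ∫⁻ t in Ioo (1 : ℝ) (7 / 5), ENNReal.ofReal (‖Y (t, y)‖ ^ 2 * V m n (t, y)) ≤
      ∫⁻ x, R1.indicator (dA m n Y) (x, y) := by
    apply le_fib measurableSet_Ioo
    intro x hx
    have : (x, y) ∈ R1 := Or.inr hx.1
    rw [indicator_of_mem this, dA_eq (hmem x ⟨by linarith [hx.1], hx.2⟩)]
  have hP : ∫⁻ x, R5.indicator (dA m n Y) (x, y) ≤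
      ∫⁻ t in Ioc (0 : ℝ) 1, ENNReal.ofReal (‖Y (t, y)‖ ^ 2 * V m n (t, y)) := by
    apply fib_le measurableSet_Ioc
    intro x
    by_cases hR : (x, y) ∈ R5
    · rw [indicator_of_mem hR]
      by_cases ho : (x, y) ∈ om
      · have hxI : x ∈ Ioc (0 : ℝ) 1 := ⟨ho.1, hR.2.2⟩
        rw [indicator_of_mem hxI, dA_eq ho]
      · rw [dA_zero ho]; exact zero_le
    · rw [indicator_of_notMem hR]; exact zero_le
  calc ENNReal.ofReal (2 / 5) * ∫⁻ x, R5.indicator (dA m n Y) (x, y)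
      ≤ ENNReal.ofReal (2 / 5) *
        ∫⁻ t in Ioc (0 : ℝ) 1, ENNReal.ofReal (‖Y (t, y)‖ ^ 2 * V m n (t, y)) := by gcongr
    _ ≤ _ := hz
    _ ≤ ENNReal.ofReal (1 - 0) * (2 * (∫⁻ x, R1.indicator (dA m n Y) (x, y)) +
        ENNReal.ofReal (2 / 5) * (2 * ENNReal.ofReal (7 / 5 - 0) * ∫⁻ x, dE m n Y (x, y))) := by
        gcongr
    _ ≤ 2 * (∫⁻ x, R1.indicator (dA m n Y) (x, y)) + 4 * ∫⁻ x, dE m n Y (x, y) := by
        rw [sub_zero, ENNReal.ofReal_one, one_mul]
        apply add_le_add le_rfl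
        rw [← mul_assoc, ← mul_assoc, sub_zero]
        apply mul_le_mul' _ le_rfl
        have e2 : (2 : ℝ≥0∞) = ENNReal.ofReal 2 := by simp
        have e4 : (4 : ℝ≥0∞) = ENNReal.ofReal 4 := by simp
        rw [e2, e4, ← ENNReal.ofReal_mul (by norm_num), ← ENNReal.ofReal_mul (by norm_num)]
        apply ENNReal.ofReal_le_ofReal
        norm_num

end H51.Hartogs
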