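import Pool.Agent.H59.Hart.TwoD
import Pool.Agent.H51.Hartogs.Quad

set_option autoImplicit false

open MeasureTheory Set Filter Topology
open scoped ENNReal NNReal

namespace H51.Hartogs

theorem isOpen_om : IsOpen om := by
  unfold om
  simp only [setOf_and, setOf_or]
  refine IsOpen.inter (isOpen_lt (by fun_prop) (by fun_prop)) (IsOpen.inter
    (isOpen_lt (by fun_prop) (by fun_prop)) (IsOpen.inter
    (isOpen_lt (by fun_prop) (by fun_prop)) (IsOpen.union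
    (isOpen_lt (by fun_prop) (by fun_prop)) (isOpen_lt (by fun_prop) (by fun_prop)))))

theorem V_pos (m n : ℤ) {p : ℝ × ℝ} (h1 : 0 < p.1) (h2 : 0 < p.2) : 0 < V m n p := by
  unfold V; positivity

/-- density of the norm -/
noncomputable def dA (m n : ℤ) (Y : ℝ × ℝ → ℂ) (p : ℝ × ℝ) : ℝ≥0∞ :=
  om.indicator (fun p => ENNReal.ofReal (‖Y p‖ ^ 2 * V m n p)) p

/-- energy density -/
noncomputable def dE (m n : ℤ) (Y : ℝ × ℝ → ℂ) (p : ℝ × ℝ) : ℝ≥0∞ :=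
  om.indicator (fun p => ENNReal.ofReal
    ((‖fderiv ℝ Y p (1, 0)‖ ^ 2 + ‖fderiv ℝ Y p (0, 1)‖ ^ 2) * V m n p)) p

theorem V_continuousOn (m n : ℤ) : ContinuousOn (V m n) om := by
  unfold V
  apply ContinuousOn.mul
  · exact continuousOn_fst.zpow₀ _ (fun p hp => Or.inl hp.1.ne')
  · exact continuousOn_snd.zpow₀ _ (fun p hp => Or.inl hp.2.1.ne')

theorem measurable_indicator_om {g : ℝ × ℝ → ℝ≥0∞} (hg : ContinuousOn g om) :
    Measurable (om.indicator g) := by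
  classical
  rw [← Set.piecewise_eq_indicator]
  exact hg.measurable_piecewise continuousOn_const isOpen_om.measurableSet

theorem fderiv_contOn {Y : ℝ × ℝ → ℂ} (hY : ContDiffOn ℝ 1 Y om) :
    ContinuousOn (fun p => fderiv ℝ Y p) om :=
  hY.continuousOn_fderiv_of_isOpen isOpen_om le_rfl

theorem measurable_dA {m n : ℤ} {Y : ℝ × ℝ → ℂ} (hY : ContDiffOn ℝ 1 Y om) :
    Measurable (dA m n Y) := by
  apply measurable_indicator_om
  exact ENNReal.continuous_ofReal.comp_continuousOn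
    ((hY.continuousOn.norm.pow 2).mul (V_continuousOn m n))

theorem measurable_dE {m n : ℤ} {Y : ℝ × ℝ → ℂ} (hY : ContDiffOn ℝ 1 Y om) :
    Measurable (dE m n Y) := by
  apply measurable_indicator_om
  have h := fderiv_contOn hY
  exact ENNReal.continuous_ofReal.comp_continuousOn
    ((((h.clm_apply continuousOn_const).norm.pow 2).add
      ((h.clm_apply continuousOn_const).norm.pow 2)).mul (V_continuousOn m n))

/-- the norm of a linear map on a vector -/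
theorem norm_apply_sq_le (L : ℝ × ℝ →L[ℝ] ℂ) (a b : ℝ) :
    ‖L (a, b)‖ ^ 2 ≤ (a ^ 2 + b ^ 2) * (‖L (1, 0)‖ ^ 2 + ‖L (0, 1)‖ ^ 2) := by
  have h1 : L (a, b) = a • L (1, 0) + b • L (0, 1) := by
    rw [← map_smul, ← map_smul, ← map_add]; simp
  have h2 : ‖L (a, b)‖ ≤ |a| * ‖L (1, 0)‖ + |b| * ‖L (0, 1)‖ := by
    rw [h1]
    refine (norm_add_le _ _).trans ?_
    rw [norm_smul, norm_smul, Real.norm_eq_abs, Real.norm_eq_abs]
  have h3 := pow_le_pow_left₀ (norm_nonneg _) h2 2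
  have h4 : (|a| * ‖L (1, 0)‖ + |b| * ‖L (0, 1)‖) ^ 2 ≤
      (|a| ^ 2 + |b| ^ 2) * (‖L (1, 0)‖ ^ 2 + ‖L (0, 1)‖ ^ 2) := by
    nlinarith [sq_nonneg (|a| * ‖L (0, 1)‖ - |b| * ‖L (1, 0)‖)]
  rw [sq_abs, sq_abs] at h4
  exact h3.trans h4

/-- restriction to a path -/
theorem path_data {Y : ℝ × ℝ → ℂ} (hY : ContDiffOn ℝ 1 Y om) {γ γ' : ℝ → ℝ × ℝ} {S : Set ℝ}
    (hγ : ∀ t, HasDerivAt γ (γ' t) t) (hγ' : Continuous γ') (hmem : ∀ t ∈ S, γ t ∈ om) :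
    (∀ t ∈ S, HasDerivAt (fun t => Y (γ t)) (fderiv ℝ Y (γ t) (γ' t)) t) ∧
    ContinuousOn (fun t => fderiv ℝ Y (γ t) (γ' t)) S ∧
    ∀ t, ‖fderiv ℝ Y (γ t) (γ' t)‖ ^ 2 ≤ ((γ' t).1 ^ 2 + (γ' t).2 ^ 2) *
      (‖fderiv ℝ Y (γ t) (1, 0)‖ ^ 2 + ‖fderiv ℝ Y (γ t) (0, 1)‖ ^ 2) := by
  refine ⟨?_, ?_, ?_⟩
  · intro t ht
    have h1 : HasFDerivAt Y (fderiv ℝ Y (γ t)) (γ t) :=
      ((hY.differentiableOn (by norm_num)).differentiableAt
        (isOpen_om.mem_nhds (hmem t ht))).hasFDerivAt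
    exact h1.comp_hasDerivAt t (hγ t)
  · apply ContinuousOn.clm_apply
    · have hc : Continuous γ := continuous_iff_continuousAt.2 (fun t => (hγ t).continuousAt)
      exact (fderiv_contOn hY).comp hc.continuousOn hmem
    · exact hγ'.continuousOn
  · intro t
    exact norm_apply_sq_le _ _ _

/-- integrating an inequality between fibre integrals -/
theorem int3 {α : Type*} [MeasurableSpace α] {μ : Measure α} {p q1 q2 : α → ℝ≥0∞}
    (hp : Measurable p) (hq1 : Measurable q1) (hq2 : Measurable q2) {C0 C1 C2 : ℝ≥0∞}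
    (h : ∀ᵐ t ∂μ, C0 * p t ≤ C1 * q1 t + C2 * q2 t) :
    C0 * ∫⁻ t, p t ∂μ ≤ C1 * (∫⁻ t, q1 t ∂μ) + C2 * ∫⁻ t, q2 t ∂μ := by
  rw [← lintegral_const_mul _ hp, ← lintegral_const_mul _ hq1, ← lintegral_const_mul _ hq2,
    ← lintegral_add_left (hq1.const_mul _)]
  exact lintegral_mono_ae h

theorem cart_x {P : ℝ × ℝ → ℝ≥0∞} (hP : Measurable P) :
    ∫⁻ p, P p = ∫⁻ x, ∫⁻ y, P (x, y) := by
  rw [Measure.volume_eq_prod, lintegral_prod _ hP.aemeasurable]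

theorem cart_y {P : ℝ × ℝ → ℝ≥0∞} (hP : Measurable P) :
    ∫⁻ p, P p = ∫⁻ y, ∫⁻ x, P (x, y) := by
  rw [Measure.volume_eq_prod, lintegral_prod_symm _ hP.aemeasurable]

/-- polar coordinates -/
noncomputable def Phi (r θ : ℝ) : ℝ × ℝ := (r * Real.cos θ, r * Real.sin θ)

theorem measurable_Phi : Measurable (fun q : ℝ × ℝ => Phi q.1 q.2) := by
  have : Continuous (fun q : ℝ × ℝ => Phi q.1 q.2) := by unfold Phi; fun_prop
  exact this.measurable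

theorem pol_meas {P : ℝ × ℝ → ℝ≥0∞} (hP : Measurable P) :
    Measurable (fun q : ℝ × ℝ => ENNReal.ofReal q.1 * P (Phi q.1 q.2)) :=
  (measurable_fst.ennreal_ofReal).mul (hP.comp measurable_Phi)

theorem pol_r {P : ℝ × ℝ → ℝ≥0∞} (hP : Measurable P) :
    ∫⁻ p, P p = ∫⁻ r in Ioi (0 : ℝ), ∫⁻ θ in Ioo (-Real.pi) Real.pi,
      ENNReal.ofReal r * P (Phi r θ) := by
  rw [← lintegral_comp_polarCoord_symm]
  have h1 : polarCoord.target = Ioi (0 : ℝ) ×ˢ Ioo (-Real.pi) Real.pi := rfl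
  rw [h1, Measure.volume_eq_prod, ← Measure.prod_restrict,
    lintegral_prod _ (by
      apply Measurable.aemeasurable
      exact pol_meas hP)]
  rfl

theorem pol_θ {P : ℝ × ℝ → ℝ≥0∞} (hP : Measurable P) :
    ∫⁻ p, P p = ∫⁻ θ in Ioo (-Real.pi) Real.pi, ∫⁻ r in Ioi (0 : ℝ),
      ENNReal.ofReal r * P (Phi r θ) := by
  rw [pol_r hP, lintegral_lintegral_swap]
  exact (pol_meas hP).aemeasurable

theorem fib_le {P Q : ℝ → ℝ≥0∞} {S : Set ℝ} (hS : MeasurableSet S) {μ : Measure ℝ}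
    (h : ∀ y, P y ≤ S.indicator Q y) : ∫⁻ y, P y ∂μ ≤ ∫⁻ y in S, Q y ∂μ := by
  rw [← lintegral_indicator hS]; exact lintegral_mono h

theorem le_fib {P Q : ℝ → ℝ≥0∞} {S : Set ℝ} (hS : MeasurableSet S) {μ : Measure ℝ}
    (h : ∀ y ∈ S, Q y ≤ P y) : ∫⁻ y in S, Q y ∂μ ≤ ∫⁻ y, P y ∂μ :=
  (setLIntegral_mono' hS h).trans (setLIntegral_le_lintegral _ _)

end H51.Hartogs
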