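import Mathlib

set_option autoImplicit false

open MeasureTheory Set Filter Topology
open scoped ENNReal NNReal

namespace H51.Hartogs

/-- Cauchy-Schwarz on an interval -/
theorem cs_real {g : ℝ → ℝ} {a b : ℝ} (hab : a < b) (hg : ContinuousOn g (Icc a b)) :
    (∫ t in a..b, g t) ^ 2 ≤ (b - a) * ∫ t in a..b, g t ^ 2 := by
  set I := ∫ t in a..b, g t with hI
  set c := I / (b - a) with hc
  have hba : 0 < b - a := by linarith
  have huIcc : uIcc a b = Icc a b := uIcc_of_le hab.le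
  have hi1 : IntervalIntegrable g volume a b := by
    apply ContinuousOn.intervalIntegrable; rw [huIcc]; exact hg
  have hi2 : IntervalIntegrable (fun t => g t ^ 2) volume a b := by
    apply ContinuousOn.intervalIntegrable; rw [huIcc]; exact hg.pow 2
  have h0 : 0 ≤ ∫ t in a..b, (g t - c) ^ 2 :=
    intervalIntegral.integral_nonneg hab.le (fun t _ => sq_nonneg _)
  have h1 : ∫ t in a..b, (g t - c) ^ 2 = (∫ t in a..b, g t ^ 2) - 2 * c * I + c ^ 2 * (b - a) := by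
    have e : (fun t => (g t - c) ^ 2) = fun t => (g t ^ 2 - (2 * c) * g t) + c ^ 2 := by
      funext t; ring
    rw [e, intervalIntegral.integral_add (hi2.sub (hi1.const_mul _)) (by simp),
      intervalIntegral.integral_sub hi2 (hi1.const_mul _),
      intervalIntegral.integral_const_mul, intervalIntegral.integral_const, smul_eq_mul]
    ring
  rw [h1] at h0
  have h2 : c * (b - a) = I := by rw [hc]; field_simp
  have h3 : c ^ 2 * (b - a) = c * I := by rw [pow_two, mul_assoc, h2]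
  rw [h3] at h0
  have h4 : c * I ≤ ∫ t in a..b, g t ^ 2 := by linarith
  calc I ^ 2 = (b - a) * (c * I) := by rw [← mul_assoc, mul_comm (b - a) c, h2]; ring
    _ ≤ (b - a) * ∫ t in a..b, g t ^ 2 := mul_le_mul_of_nonneg_left h4 hba.le

/-- basic one-dimensional estimate -/
theorem T0 {f f' : ℝ → ℂ} {a b κ : ℝ} (hab : a < b) (hf : ∀ t ∈ Icc a b, HasDerivAt f (f' t) t)
    (hf' : ContinuousOn f' (Icc a b)) (hκ : 0 ≤ κ) {e : ℝ → ℝ≥0∞}
    (he : ∀ t ∈ Ioo a b, ENNReal.ofReal (‖f' t‖ ^ 2 * κ) ≤ e t) :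
    ENNReal.ofReal (κ * ‖f b - f a‖ ^ 2) ≤ ENNReal.ofReal (b - a) * ∫⁻ t in Ioo a b, e t := by
  have huIcc : uIcc a b = Icc a b := uIcc_of_le hab.le
  have hint : IntervalIntegrable f' volume a b := by
    apply ContinuousOn.intervalIntegrable; rw [huIcc]; exact hf'
  have hftc : ∫ t in a..b, f' t = f b - f a :=
    intervalIntegral.integral_eq_sub_of_hasDerivAt (by rw [huIcc]; exact hf) hint
  have h1 : ‖f b - f a‖ ≤ ∫ t in a..b, ‖f' t‖ := by
    rw [← hftc]; exact intervalIntegral.norm_integral_le_integral_norm hab.le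
  have h2 := cs_real hab hf'.norm
  have h3 : ‖f b - f a‖ ^ 2 ≤ (b - a) * ∫ t in a..b, ‖f' t‖ ^ 2 :=
    (pow_le_pow_left₀ (norm_nonneg _) h1 2).trans h2
  have h4 : κ * ‖f b - f a‖ ^ 2 ≤ (b - a) * ∫ t in a..b, ‖f' t‖ ^ 2 * κ := by
    rw [intervalIntegral.integral_mul_const]
    calc κ * ‖f b - f a‖ ^ 2 ≤ κ * ((b - a) * ∫ t in a..b, ‖f' t‖ ^ 2) :=
          mul_le_mul_of_nonneg_left h3 hκ
      _ = _ := by ring
  have hcont : ContinuousOn (fun t => ‖f' t‖ ^ 2 * κ) (Icc a b) :=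
    (hf'.norm.pow 2).mul continuousOn_const
  have hint2 : IntegrableOn (fun t => ‖f' t‖ ^ 2 * κ) (Ioc a b) :=
    (hcont.integrableOn_Icc).mono_set Ioc_subset_Icc_self
  refine (ENNReal.ofReal_le_ofReal h4).trans ?_
  rw [ENNReal.ofReal_mul (by linarith), intervalIntegral.integral_of_le hab.le,
    ofReal_integral_eq_lintegral_ofReal hint2
      (Eventually.of_forall (fun t => mul_nonneg (sq_nonneg _) hκ)),
    ← restrict_Ioo_eq_restrict_Ioc]
  exact mul_le_mul' le_rfl (setLIntegral_mono' measurableSet_Ioo he)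

/-- the real inequality behind the arguments with zero boundary values -/
theorem real_zero {κ B y : ℝ} (hκ : 0 ≤ κ) (hB : 0 ≤ B)
    (h : ∀ ε > 0, ∃ u : ℝ, 0 ≤ u ∧ u < ε ∧ ∃ v : ℝ, y ≤ v + u ∧ κ * v ^ 2 ≤ B ∧ 0 ≤ v) (hy : 0 ≤ y) :
    κ * y ^ 2 ≤ B := by
  have hlim : Tendsto (fun ε : ℝ => κ * (y - ε) ^ 2) (𝓝[>] 0) (𝓝 (κ * (y - 0) ^ 2)) := by
    apply Tendsto.mono_left _ nhdsWithin_le_nhds
    exact (Continuous.tendsto (by fun_prop) 0)
  rw [sub_zero] at hlim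
  rcases hy.eq_or_lt with h0 | h0
  · rw [← h0]; simpa using hB
  apply le_of_tendsto hlim
  filter_upwards [Ioo_mem_nhdsGT h0] with ε hε
  obtain ⟨u, hu0, huε, v, hv1, hv2, hv3⟩ := h ε hε.1
  have h1 : (y - ε) ^ 2 ≤ v ^ 2 := by
    apply pow_le_pow_left₀ (by linarith [hε.2]); linarith
  exact (mul_le_mul_of_nonneg_left h1 hκ).trans hv2

/-- zero boundary value on the left, decreasing weight -/
theorem zero_left {f f' : ℝ → ℂ} {G : ℝ → ℝ} {a b : ℝ} {e : ℝ → ℝ≥0∞}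
    (hf : ∀ t ∈ Ioo a b, HasDerivAt f (f' t) t) (hf' : ContinuousOn f' (Ioo a b))
    (hG0 : ∀ t ∈ Ioo a b, 0 ≤ G t) (hG : AntitoneOn G (Ioo a b))
    (he : ∀ t ∈ Ioo a b, ENNReal.ofReal (‖f' t‖ ^ 2 * G t) ≤ e t)
    (hz : ∀ ε > 0, ∃ᶠ s in 𝓝[>] a, ‖f s‖ < ε) :
    ∫⁻ t in Ioo a b, ENNReal.ofReal (‖f t‖ ^ 2 * G t) ≤
      ENNReal.ofReal ((b - a) ^ 2) * ∫⁻ t in Ioo a b, e t := by
  rcases le_or_gt b a with hab | hab
  · rw [Ioo_eq_empty (not_lt.2 hab)]; simp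
  have hpt : ∀ t ∈ Ioo a b, ENNReal.ofReal (‖f t‖ ^ 2 * G t) ≤
      ENNReal.ofReal (b - a) * ∫⁻ t in Ioo a b, e t := by
    intro t ht
    by_cases htop : ENNReal.ofReal (b - a) * ∫⁻ t in Ioo a b, e t = ∞
    · rw [htop]; exact le_top
    rw [← ENNReal.ofReal_toReal htop]
    apply ENNReal.ofReal_le_ofReal
    rw [mul_comm]
    apply real_zero (hG0 t ht) ENNReal.toReal_nonneg _ (norm_nonneg _)
    intro ε hε
    have hmem : ∀ᶠ s in 𝓝[>] a, s ∈ Ioo a t := Ioo_mem_nhdsGT ht.1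
    obtain ⟨s, hs1, hs2⟩ := ((hz ε hε).and_eventually hmem).exists
    refine ⟨‖f s‖, norm_nonneg _, hs1, ‖f t - f s‖, ?_, ?_, norm_nonneg _⟩
    · calc ‖f t‖ = ‖(f t - f s) + f s‖ := by rw [sub_add_cancel]
        _ ≤ _ := norm_add_le _ _
    · have hsub : Icc s t ⊆ Ioo a b := fun r hr => ⟨lt_of_lt_of_le hs2.1 hr.1, lt_of_le_of_lt hr.2 ht.2⟩
      have h1 := T0 hs2.2 (fun r hr => hf r (hsub hr)) (hf'.mono hsub) (hG0 t ht) (e := e) (by
        intro r hr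
        have hr' : r ∈ Ioo a b := hsub (Ioo_subset_Icc_self hr)
        refine (ENNReal.ofReal_le_ofReal ?_).trans (he r hr')
        exact mul_le_mul_of_nonneg_left (hG hr' ht hr.2.le) (sq_nonneg _))
      have h2 : ENNReal.ofReal (t - s) * ∫⁻ r in Ioo s t, e r ≤
          ENNReal.ofReal (b - a) * ∫⁻ r in Ioo a b, e r := by
        apply mul_le_mul' (ENNReal.ofReal_le_ofReal (by linarith [hs2.1, ht.2]))
        exact lintegral_mono_set (fun r hr => hsub (Ioo_subset_Icc_self hr))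
      have h3 := h1.trans h2
      rwa [ENNReal.ofReal_le_iff_le_toReal htop] at h3
  calc ∫⁻ t in Ioo a b, ENNReal.ofReal (‖f t‖ ^ 2 * G t)
      ≤ ∫⁻ t in Ioo a b, (ENNReal.ofReal (b - a) * ∫⁻ t in Ioo a b, e t) :=
        setLIntegral_mono' measurableSet_Ioo hpt
    _ = ENNReal.ofReal ((b - a) ^ 2) * ∫⁻ t in Ioo a b, e t := by
        rw [setLIntegral_const, Real.volume_Ioo, pow_two, ENNReal.ofReal_mul (by linarith)]
        ring

/-- zero boundary value on the right, increasing weight -/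
theorem zero_right {f f' : ℝ → ℂ} {G : ℝ → ℝ} {a b : ℝ} {e : ℝ → ℝ≥0∞}
    (hf : ∀ t ∈ Ioo a b, HasDerivAt f (f' t) t) (hf' : ContinuousOn f' (Ioo a b))
    (hG0 : ∀ t ∈ Ioo a b, 0 ≤ G t) (hG : MonotoneOn G (Ioo a b))
    (he : ∀ t ∈ Ioo a b, ENNReal.ofReal (‖f' t‖ ^ 2 * G t) ≤ e t)
    (hz : ∀ ε > 0, ∃ᶠ s in 𝓝[<] b, ‖f s‖ < ε) :
    ∫⁻ t in Ioo a b, ENNReal.ofReal (‖f t‖ ^ 2 * G t) ≤
      ENNReal.ofReal ((b - a) ^ 2) * ∫⁻ t in Ioo a b, e t := by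
  rcases le_or_gt b a with hab | hab
  · rw [Ioo_eq_empty (not_lt.2 hab)]; simp
  have hpt : ∀ t ∈ Ioo a b, ENNReal.ofReal (‖f t‖ ^ 2 * G t) ≤
      ENNReal.ofReal (b - a) * ∫⁻ t in Ioo a b, e t := by
    intro t ht
    by_cases htop : ENNReal.ofReal (b - a) * ∫⁻ t in Ioo a b, e t = ∞
    · rw [htop]; exact le_top
    rw [← ENNReal.ofReal_toReal htop]
    apply ENNReal.ofReal_le_ofReal
    rw [mul_comm]
    apply real_zero (hG0 t ht) ENNReal.toReal_nonneg _ (norm_nonneg _)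
    intro ε hε
    have hmem : ∀ᶠ s in 𝓝[<] b, s ∈ Ioo t b := Ioo_mem_nhdsLT ht.2
    obtain ⟨s, hs1, hs2⟩ := ((hz ε hε).and_eventually hmem).exists
    refine ⟨‖f s‖, norm_nonneg _, hs1, ‖f s - f t‖, ?_, ?_, norm_nonneg _⟩
    · calc ‖f t‖ = ‖f s - (f s - f t)‖ := by rw [sub_sub_cancel]
        _ ≤ ‖f s‖ + ‖f s - f t‖ := norm_sub_le _ _
        _ = _ := add_comm _ _
    · have hsub : Icc t s ⊆ Ioo a b := fun r hr => ⟨lt_of_lt_of_le ht.1 hr.1, lt_of_le_of_lt hr.2 hs2.2⟩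
      have h1 := T0 hs2.1 (fun r hr => hf r (hsub hr)) (hf'.mono hsub) (hG0 t ht) (e := e) (by
        intro r hr
        have hr' : r ∈ Ioo a b := hsub (Ioo_subset_Icc_self hr)
        refine (ENNReal.ofReal_le_ofReal ?_).trans (he r hr')
        exact mul_le_mul_of_nonneg_left (hG ht hr' hr.1.le) (sq_nonneg _))
      have h2 : ENNReal.ofReal (s - t) * ∫⁻ r in Ioo t s, e r ≤
          ENNReal.ofReal (b - a) * ∫⁻ r in Ioo a b, e r := by
        apply mul_le_mul' (ENNReal.ofReal_le_ofReal (by linarith [hs2.2, ht.1]))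
        exact lintegral_mono_set (fun r hr => hsub (Ioo_subset_Icc_self hr))
      have h3 := h1.trans h2
      rwa [ENNReal.ofReal_le_iff_le_toReal htop] at h3
  calc ∫⁻ t in Ioo a b, ENNReal.ofReal (‖f t‖ ^ 2 * G t)
      ≤ ∫⁻ t in Ioo a b, (ENNReal.ofReal (b - a) * ∫⁻ t in Ioo a b, e t) :=
        setLIntegral_mono' measurableSet_Ioo hpt
    _ = ENNReal.ofReal ((b - a) ^ 2) * ∫⁻ t in Ioo a b, e t := by
        rw [setLIntegral_const, Real.volume_Ioo, pow_two, ENNReal.ofReal_mul (by linarith)]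
        ring

/-- transfer: control of `(a,c]` from `(c,b)` for an increasing weight -/
theorem transfer {f f' : ℝ → ℂ} {G : ℝ → ℝ} {a b c : ℝ} {e : ℝ → ℝ≥0∞} (hac : a ≤ c) (hcb : c < b)
    (hf : ∀ t ∈ Ioo a b, HasDerivAt f (f' t) t) (hf' : ContinuousOn f' (Ioo a b))
    (hG0 : ∀ t ∈ Ioo a b, 0 ≤ G t) (hG : MonotoneOn G (Ioo a b))
    (he : ∀ t ∈ Ioo a b, ENNReal.ofReal (‖f' t‖ ^ 2 * G t) ≤ e t) :
    ENNReal.ofReal (b - c) * ∫⁻ t in Ioc a c, ENNReal.ofReal (‖f t‖ ^ 2 * G t) ≤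
      ENNReal.ofReal (c - a) * (2 * (∫⁻ t in Ioo c b, ENNReal.ofReal (‖f t‖ ^ 2 * G t)) +
        ENNReal.ofReal (b - c) * (2 * ENNReal.ofReal (b - a) * ∫⁻ t in Ioo a b, e t)) := by
  set R := 2 * ENNReal.ofReal (b - a) * ∫⁻ t in Ioo a b, e t with hR
  have hpt : ∀ t ∈ Ioc a c, ∀ s ∈ Ioo c b, ENNReal.ofReal (‖f t‖ ^ 2 * G t) ≤
      2 * ENNReal.ofReal (‖f s‖ ^ 2 * G s) + R := by
    intro t ht s hs
    have ht' : t ∈ Ioo a b := ⟨ht.1, lt_of_le_of_lt ht.2 hcb⟩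
    have hs' : s ∈ Ioo a b := ⟨lt_of_le_of_lt hac hs.1, hs.2⟩
    have hts : t < s := lt_of_le_of_lt ht.2 hs.1
    have hsub : Icc t s ⊆ Ioo a b := fun r hr => ⟨lt_of_lt_of_le ht.1 hr.1, lt_of_le_of_lt hr.2 hs.2⟩
    have h1 := T0 hts (fun r hr => hf r (hsub hr)) (hf'.mono hsub) (hG0 t ht') (e := e) (by
      intro r hr
      have hr' : r ∈ Ioo a b := hsub (Ioo_subset_Icc_self hr)
      refine (ENNReal.ofReal_le_ofReal ?_).trans (he r hr')
      exact mul_le_mul_of_nonneg_left (hG ht' hr' hr.1.le) (sq_nonneg _))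
    have h2 : ENNReal.ofReal (s - t) * ∫⁻ r in Ioo t s, e r ≤
        ENNReal.ofReal (b - a) * ∫⁻ r in Ioo a b, e r := by
      apply mul_le_mul' (ENNReal.ofReal_le_ofReal (by linarith [hs.2, ht.1]))
      exact lintegral_mono_set (fun r hr => hsub (Ioo_subset_Icc_self hr))
    have h3 := h1.trans h2
    have h4 : ‖f t‖ ^ 2 * G t ≤ 2 * (‖f s‖ ^ 2 * G s) + 2 * (G t * ‖f s - f t‖ ^ 2) := by
      have h5 : ‖f t‖ ≤ ‖f s‖ + ‖f s - f t‖ := by
        calc ‖f t‖ = ‖f s - (f s - f t)‖ := by rw [sub_sub_cancel]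
          _ ≤ ‖f s‖ + ‖f s - f t‖ := norm_sub_le _ _
      have h6 : ‖f t‖ ^ 2 ≤ 2 * ‖f s‖ ^ 2 + 2 * ‖f s - f t‖ ^ 2 := by
        have := pow_le_pow_left₀ (norm_nonneg _) h5 2
        nlinarith [sq_nonneg (‖f s‖ - ‖f s - f t‖)]
      have h7 : G t ≤ G s := hG ht' hs' hts.le
      have h8 : ‖f s‖ ^ 2 * G t ≤ ‖f s‖ ^ 2 * G s := mul_le_mul_of_nonneg_left h7 (sq_nonneg _)
      have h9 := mul_le_mul_of_nonneg_right h6 (hG0 t ht')
      nlinarith
    refine (ENNReal.ofReal_le_ofReal h4).trans ?_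
    have hnn1 : 0 ≤ ‖f s‖ ^ 2 * G s := mul_nonneg (sq_nonneg _) (hG0 s hs')
    have hnn2 : 0 ≤ G t * ‖f s - f t‖ ^ 2 := mul_nonneg (hG0 t ht') (sq_nonneg _)
    have h2' : ∀ x : ℝ, ENNReal.ofReal (2 * x) = 2 * ENNReal.ofReal x := by
      intro x
      rw [ENNReal.ofReal_mul (by norm_num)]; simp
    rw [ENNReal.ofReal_add (by linarith) (by linarith), h2', h2', hR, mul_assoc]
    exact add_le_add le_rfl (mul_le_mul' le_rfl h3)
  have hint : ∀ t ∈ Ioc a c, ENNReal.ofReal (b - c) * ENNReal.ofReal (‖f t‖ ^ 2 * G t) ≤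
      2 * (∫⁻ s in Ioo c b, ENNReal.ofReal (‖f s‖ ^ 2 * G s)) + ENNReal.ofReal (b - c) * R := by
    intro t ht
    have h1 : ∫⁻ s in Ioo c b, ENNReal.ofReal (‖f t‖ ^ 2 * G t) ≤
        ∫⁻ s in Ioo c b, (2 * ENNReal.ofReal (‖f s‖ ^ 2 * G s) + R) :=
      setLIntegral_mono' measurableSet_Ioo (fun s hs => hpt t ht s hs)
    rw [setLIntegral_const, Real.volume_Ioo, lintegral_add_right _ measurable_const,
      setLIntegral_const, Real.volume_Ioo, lintegral_const_mul' _ _ (by simp)] at h1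
    rw [mul_comm (ENNReal.ofReal (b - c)) (ENNReal.ofReal _), mul_comm (ENNReal.ofReal (b - c)) R]
    exact h1
  calc ENNReal.ofReal (b - c) * ∫⁻ t in Ioc a c, ENNReal.ofReal (‖f t‖ ^ 2 * G t)
      = ∫⁻ t in Ioc a c, ENNReal.ofReal (b - c) * ENNReal.ofReal (‖f t‖ ^ 2 * G t) := by
        rw [lintegral_const_mul' _ _ ENNReal.ofReal_ne_top]
    _ ≤ ∫⁻ t in Ioc a c, (2 * (∫⁻ s in Ioo c b, ENNReal.ofReal (‖f s‖ ^ 2 * G s)) +
          ENNReal.ofReal (b - c) * R) := setLIntegral_mono' measurableSet_Ioc hint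
    _ = _ := by
        rw [setLIntegral_const, Real.volume_Ioc, mul_comm]

end H51.Hartogs
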