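import Pool.Agent.H59.Hart.Arc

set_option autoImplicit false

open MeasureTheory Set Filter Topology
open scoped ENNReal NNReal

namespace H51.Hartogs

/-- the inner target region of the radial transfer -/
def R6 : Set (ℝ × ℝ) := {p | p.1 ^ 2 + p.2 ^ 2 ≤ 9 / 4}

theorem meas_R6 : MeasurableSet R6 :=
  measurableSet_le ((measurable_fst.pow_const 2).add (measurable_snd.pow_const 2)) measurable_const

theorem Phi_R6 (r θ : ℝ) : Phi r θ ∈ R6 ↔ r ^ 2 ≤ 9 / 4 := by
  unfold R6; rw [mem_ofPred_eq, Phi_sq]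

theorem hasDerivAt_rad (θ : ℝ) (t : ℝ) :
    HasDerivAt (fun t => Phi t θ) ((Real.cos θ, Real.sin θ) : ℝ × ℝ) t := by
  unfold Phi
  apply HasDerivAt.prodMk
  · simpa using (hasDerivAt_id t).mul_const (Real.cos θ)
  · simpa using (hasDerivAt_id t).mul_const (Real.sin θ)

theorem radial_weight (m n : ℤ) {r θ : ℝ} (hr : 0 < r) :
    r * V m n (Phi r θ) = r ^ (2 * (m + n) + 3) * (Real.cos θ ^ (2 * m + 1) * Real.sin θ ^ (2 * n + 1)) := by
  unfold V Phi
  simp only
  rw [mul_zpow, mul_zpow]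
  have h1 : r ^ (2 * (m + n) + 3) = r * (r ^ (2 * m + 1) * r ^ (2 * n + 1)) := by
    rw [← zpow_add₀ hr.ne', ← zpow_one_add₀ hr.ne']
    congr 1; ring
  rw [h1]; ring

/-- left end of the radial slice -/
noncomputable def rho (θ : ℝ) : ℝ := if θ < Real.pi / 4 then 0 else (Real.sin θ)⁻¹

theorem rho_spec {θ : ℝ} (hθ : θ ∈ Ioo 0 (Real.pi / 2)) :
    0 ≤ rho θ ∧ rho θ ≤ 3 / 2 ∧ (∀ r, 0 < r → r < 2 → (Phi r θ ∈ om ↔ rho θ < r)) := by
  have hpi := Real.pi_pos
  have hc : 0 < Real.cos θ := Real.cos_pos_of_mem_Ioo ⟨by linarith [hθ.1, Real.pi_pos], hθ.2⟩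
  have hs : 0 < Real.sin θ := Real.sin_pos_of_pos_of_lt_pi hθ.1 (by linarith [hθ.2, Real.pi_pos])
  have hsc := Real.sin_sq_add_cos_sq θ
  unfold rho
  split_ifs with h
  · -- sin < cos
    have hlt : Real.sin θ < Real.cos θ := by
      rw [← Real.cos_pi_div_two_sub]
      apply Real.cos_lt_cos_of_nonneg_of_le_pi_div_two hθ.1.le (by linarith [hθ.1]) (by linarith)
    refine ⟨le_refl _, by norm_num, fun r hr hr2 => ?_⟩
    constructor
    · intro _; exact hr
    · intro _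
      refine ⟨mul_pos hr hc, mul_pos hr hs, by rw [Phi_sq]; nlinarith, Or.inl ?_⟩
      exact mul_lt_mul_of_pos_left hlt hr
  · have hge : Real.cos θ ≤ Real.sin θ := by
      rw [← Real.cos_pi_div_two_sub]
      apply Real.cos_le_cos_of_nonneg_of_le_pi (by linarith [hθ.2]) (by linarith [hθ.2])
      push Not at h
      linarith
    have hs2 : 1 / 2 ≤ Real.sin θ ^ 2 := by nlinarith
    have hs3 : 2 / 3 ≤ Real.sin θ := by
      by_contra hcon
      push Not at hcon
      nlinarith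
    refine ⟨(inv_pos.2 hs).le, ?_, fun r hr hr2 => ?_⟩
    · rw [inv_le_comm₀ hs (by norm_num)]
      norm_num; exact hs3
    · rw [inv_lt_iff_one_lt_mul₀ hs]
      constructor
      · rintro ⟨_, _, _, h4⟩
        unfold Phi at h4
        simp only at h4
        rcases h4 with h4 | h4
        · exfalso
          have := lt_of_mul_lt_mul_left h4 hr.le
          linarith
        · exact h4
      · intro h4
        refine ⟨mul_pos hr hc, mul_pos hr hs, by rw [Phi_sq]; nlinarith, Or.inr ?_⟩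
        unfold Phi
        simp only
        exact h4

theorem L6 {m n : ℤ} {Y : ℝ × ℝ → ℂ} (hY : ContDiffOn ℝ 1 Y om) (hmn : -1 ≤ m + n) :
    ENNReal.ofReal (1 / 2) * ∫⁻ p, R6.indicator (dA m n Y) p ≤
      4 * (∫⁻ p, R3.indicator (dA m n Y) p) + 4 * ∫⁻ p, dE m n Y p := by
  have hmP : Measurable (R6.indicator (dA m n Y)) := (measurable_dA hY).indicator meas_R6
  have hmQ : Measurable (R3.indicator (dA m n Y)) := (measurable_dA hY).indicator meas_R3
  have hmE : Measurable (dE m n Y) := measurable_dE hY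
  have hsw : ∀ {P : ℝ × ℝ → ℝ≥0∞}, Measurable P → Measurable (fun θ => ∫⁻ r in Ioi (0 : ℝ),
      ENNReal.ofReal r * P (Phi r θ)) := by
    intro P hP
    exact Measurable.lintegral_prod_left' (pol_meas hP)
  rw [pol_θ hmP, pol_θ hmQ, pol_θ hmE]
  apply int3 (hsw hmP) (hsw hmQ) (hsw hmE)
  filter_upwards [ae_restrict_mem measurableSet_Ioo] with θ hθπ
  by_cases hθ : θ ∈ Ioo 0 (Real.pi / 2)
  swap
  · have h0 : ∀ r ∈ Ioi (0 : ℝ),
        ENNReal.ofReal r * R6.indicator (dA m n Y) (Phi r θ) = 0 := by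
      intro r hr
      by_cases hR : Phi r θ ∈ R6
      · rw [indicator_of_mem hR]
        have : Phi r θ ∉ om := by
          intro ho
          exact hθ (Phi_mem_angle hr hθπ ho).1
        rw [dA_zero this, mul_zero]
      · rw [indicator_of_notMem hR, mul_zero]
    rw [setLIntegral_congr_fun measurableSet_Ioi h0]
    simp
  have hpi := Real.pi_pos
  have hc : 0 < Real.cos θ := Real.cos_pos_of_mem_Ioo ⟨by linarith [hθ.1, Real.pi_pos], hθ.2⟩
  have hs : 0 < Real.sin θ := Real.sin_pos_of_pos_of_lt_pi hθ.1 (by linarith [hθ.2, Real.pi_pos])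
  obtain ⟨hρ0, hρ1, hρ⟩ := rho_spec hθ
  set ρ := rho θ with hρdef
  have hmem : ∀ r ∈ Ioo ρ 2, Phi r θ ∈ om := fun r hr =>
    (hρ r (lt_of_le_of_lt hρ0 hr.1) hr.2).2 hr.1
  have hpos0 : ∀ r ∈ Ioo ρ 2, 0 < r := fun r hr => lt_of_le_of_lt hρ0 hr.1
  obtain ⟨hd1, hd2, hd3⟩ := path_data hY (γ := fun t => Phi t θ)
    (γ' := fun _ => ((Real.cos θ, Real.sin θ) : ℝ × ℝ))
    (S := Ioo ρ 2) (hasDerivAt_rad θ) continuous_const hmem
  have hVpos : ∀ t ∈ Ioo ρ 2, 0 < V m n (Phi t θ) :=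
    fun t ht => V_pos m n (hmem t ht).1 (hmem t ht).2.1
  set F : ℝ → ℝ := fun t => ‖fderiv ℝ Y (Phi t θ) (1, 0)‖ ^ 2 + ‖fderiv ℝ Y (Phi t θ) (0, 1)‖ ^ 2
    with hF
  have hz := transfer (f := fun t => Y (Phi t θ)) (G := fun t => t * V m n (Phi t θ)) (a := ρ)
    (b := 2) (c := 3 / 2)
    (e := fun t => ENNReal.ofReal (F t * (t * V m n (Phi t θ)))) hρ1 (by norm_num) hd1 hd2
    (fun t ht => (mul_pos (hpos0 t ht) (hVpos t ht)).le)
    (by
      intro s hs' t ht hst
      show s * V m n (Phi s θ) ≤ t * V m n (Phi t θ)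
      rw [radial_weight m n (hpos0 s hs'), radial_weight m n (hpos0 t ht)]
      exact mul_le_mul_of_nonneg_right (zpow_mono' (hpos0 s hs') hst (by omega)) (by positivity))
    (by
      intro t ht
      apply ENNReal.ofReal_le_ofReal
      apply mul_le_mul_of_nonneg_right _ (mul_pos (hpos0 t ht) (hVpos t ht)).le
      have := hd3 t
      have h1 := Real.sin_sq_add_cos_sq θ
      simp only at this
      have h2 : Real.cos θ ^ 2 + Real.sin θ ^ 2 = 1 := by linarith
      rw [h2, one_mul] at this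
      exact this)
  have e1 : (2 - 3 / 2 : ℝ) = 1 / 2 := by norm_num
  rw [e1] at hz
  have hE : ∫⁻ t in Ioo ρ 2, ENNReal.ofReal (F t * (t * V m n (Phi t θ))) ≤
      ∫⁻ r in Ioi (0 : ℝ), ENNReal.ofReal r * dE m n Y (Phi r θ) := by
    apply le_fib2 measurableSet_Ioo (fun r hr => hpos0 r hr)
    intro r hr
    rw [dE_eq (hmem r hr), ← ENNReal.ofReal_mul (hpos0 r hr).le]
    apply le_of_eq; congr 1; rw [hF]; ring
  have hQ : ∫⁻ t in Ioo (3 / 2 : ℝ) 2, ENNReal.ofReal (‖Y (Phi t θ)‖ ^ 2 * (t * V m n (Phi t θ))) ≤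
      ∫⁻ r in Ioi (0 : ℝ), ENNReal.ofReal r * R3.indicator (dA m n Y) (Phi r θ) := by
    apply le_fib2 measurableSet_Ioo (fun r hr => lt_trans (by norm_num) hr.1)
    intro r hr
    have hr' : r ∈ Ioo ρ 2 := ⟨lt_of_le_of_lt hρ1 hr.1, hr.2⟩
    have : Phi r θ ∈ R3 := (Phi_R3 r θ).2 (by nlinarith [hr.1])
    rw [indicator_of_mem this, dA_eq (hmem r hr'), ← ENNReal.ofReal_mul (hpos0 r hr').le]
    apply le_of_eq; congr 1; ring
  have hP : ∫⁻ r in Ioi (0 : ℝ), ENNReal.ofReal r * R6.indicator (dA m n Y) (Phi r θ) ≤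
      ∫⁻ t in Ioc ρ (3 / 2), ENNReal.ofReal (‖Y (Phi t θ)‖ ^ 2 * (t * V m n (Phi t θ))) := by
    apply fib_le2 measurableSet_Ioc measurableSet_Ioi
    intro r hr
    have hr0 : 0 < r := hr
    by_cases hR : Phi r θ ∈ R6
    · rw [indicator_of_mem hR]
      by_cases ho : Phi r θ ∈ om
      · have hR2 := (Phi_R6 r θ).1 hR
        have hr32 : r ≤ 3 / 2 := by
          by_contra hcon
          push Not at hcon
          nlinarith
        have hxI : r ∈ Ioc ρ (3 / 2) := ⟨(hρ r hr0 (by linarith)).1 ho, hr32⟩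
        rw [indicator_of_mem hxI, dA_eq ho, ← ENNReal.ofReal_mul hr0.le]
        apply le_of_eq; congr 1; ring
      · rw [dA_zero ho, mul_zero]; exact zero_le
    · rw [indicator_of_notMem hR, mul_zero]; exact zero_le
  have e2 : (2 : ℝ≥0∞) = ENNReal.ofReal 2 := by simp
  have e4 : (4 : ℝ≥0∞) = ENNReal.ofReal 4 := by simp
  have hle1 : ENNReal.ofReal (3 / 2 - ρ) ≤ 2 := by
    rw [e2]; exact ENNReal.ofReal_le_ofReal (by linarith)
  have hle2 : ENNReal.ofReal (1 / 2) * (2 * ENNReal.ofReal (2 - ρ)) ≤ 2 := by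
    rw [e2, ← ENNReal.ofReal_mul (by norm_num), ← ENNReal.ofReal_mul (by norm_num)]
    exact ENNReal.ofReal_le_ofReal (by linarith)
  calc ENNReal.ofReal (1 / 2) * ∫⁻ r in Ioi (0 : ℝ), ENNReal.ofReal r * R6.indicator (dA m n Y) (Phi r θ)
      ≤ ENNReal.ofReal (1 / 2) * ∫⁻ t in Ioc ρ (3 / 2),
          ENNReal.ofReal (‖Y (Phi t θ)‖ ^ 2 * (t * V m n (Phi t θ))) := by gcongr
    _ ≤ _ := hz
    _ ≤ 2 * (2 * (∫⁻ r in Ioi (0 : ℝ), ENNReal.ofReal r * R3.indicator (dA m n Y) (Phi r θ)) +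
        2 * ∫⁻ r in Ioi (0 : ℝ), ENNReal.ofReal r * dE m n Y (Phi r θ)) := by
        apply mul_le_mul' hle1
        apply add_le_add
        · exact mul_le_mul' le_rfl hQ
        · rw [← mul_assoc]
          exact mul_le_mul' hle2 hE
    _ = 4 * (∫⁻ r in Ioi (0 : ℝ), ENNReal.ofReal r * R3.indicator (dA m n Y) (Phi r θ)) +
        4 * ∫⁻ r in Ioi (0 : ℝ), ENNReal.ofReal r * dE m n Y (Phi r θ) := by
        rw [mul_add, ← mul_assoc, ← mul_assoc]; norm_num

/-- the cone below the diagonal -/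
def R7 : Set (ℝ × ℝ) := {p | p.2 < p.1}

theorem meas_R7 : MeasurableSet R7 := measurableSet_lt measurable_snd measurable_fst

theorem inv_lintegral_top {δ : ℝ} (hδ : 0 < δ) {c : ℝ} (hc : 0 < c) :
    ∫⁻ r in Ioo 0 δ, ENNReal.ofReal (c * r⁻¹) = ∞ := by
  by_contra hcon
  have h1 : IntegrableOn (fun r : ℝ => c * r⁻¹) (Ioo 0 δ) := by
    refine ⟨(measurable_inv.const_mul c).aestronglyMeasurable, ?_⟩
    rw [hasFiniteIntegral_iff_ofReal]
    · exact lt_top_iff_ne_top.2 hcon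
    · filter_upwards [ae_restrict_mem measurableSet_Ioo] with r hr
      have := hr.1
      positivity
  have h2 : IntegrableOn (fun r : ℝ => r⁻¹) (Ioo 0 δ) := by
    have := h1.const_mul c⁻¹
    refine this.congr (Eventually.of_forall (fun r => ?_))
    field_simp
  have h3 : IntervalIntegrable (fun r : ℝ => r⁻¹) volume 0 δ := by
    rw [intervalIntegrable_iff_integrableOn_Ioo_of_le hδ.le]; exact h2
  rw [intervalIntegrable_inv_iff] at h3
  rcases h3 with h3 | h3
  · linarith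
  · apply h3; rw [uIcc_of_le hδ.le]; exact ⟨le_refl _, hδ.le⟩

theorem L7 {m n : ℤ} {Y : ℝ × ℝ → ℂ} (hY : ContDiffOn ℝ 1 Y om) (hmn : m + n ≤ -2)
    (hfin : ∫⁻ p, dA m n Y p ≠ ∞) :
    ∫⁻ p, R7.indicator (dA m n Y) p ≤ 4 * ∫⁻ p, dE m n Y p := by
  have hmP : Measurable (R7.indicator (dA m n Y)) := (measurable_dA hY).indicator meas_R7
  have hmA : Measurable (dA m n Y) := measurable_dA hY
  have hmE : Measurable (dE m n Y) := measurable_dE hY
  have hsw : ∀ {P : ℝ × ℝ → ℝ≥0∞}, Measurable P → Measurable (fun θ => ∫⁻ r in Ioi (0 : ℝ),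
      ENNReal.ofReal r * P (Phi r θ)) := by
    intro P hP
    exact Measurable.lintegral_prod_left' (pol_meas hP)
  rw [pol_θ hmA] at hfin
  have hae := ae_lt_top (hsw hmA) hfin
  rw [pol_θ hmP, pol_θ hmE, ← lintegral_const_mul' _ _ (by simp)]
  apply lintegral_mono_ae
  filter_upwards [ae_restrict_mem measurableSet_Ioo, hae] with θ hθπ hθfin
  have hpi := Real.pi_pos
  by_cases hθ : θ ∈ Ioo 0 (Real.pi / 4)
  swap
  · have h0 : ∀ r ∈ Ioi (0 : ℝ),
        ENNReal.ofReal r * R7.indicator (dA m n Y) (Phi r θ) = 0 := by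
      intro r hr
      by_cases hR : Phi r θ ∈ R7
      · rw [indicator_of_mem hR]
        have : Phi r θ ∉ om := by
          intro ho
          have hθ2 := (Phi_mem_angle hr hθπ ho).1
          apply hθ
          refine ⟨hθ2.1, ?_⟩
          by_contra hcon
          push Not at hcon
          have hge : Real.cos θ ≤ Real.sin θ := by
            rw [← Real.cos_pi_div_two_sub]
            apply Real.cos_le_cos_of_nonneg_of_le_pi (by linarith [hθ2.2]) (by linarith [hθ2.2])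
            linarith
          have h5 : r * Real.sin θ < r * Real.cos θ := hR
          have h6 := lt_of_mul_lt_mul_left h5 (le_of_lt hr)
          linarith
        rw [dA_zero this, mul_zero]
      · rw [indicator_of_notMem hR, mul_zero]
    rw [setLIntegral_congr_fun measurableSet_Ioi h0]
    simp
  have hθ2 : θ ∈ Ioo 0 (Real.pi / 2) := ⟨hθ.1, by linarith [hθ.2]⟩
  have hc : 0 < Real.cos θ := Real.cos_pos_of_mem_Ioo ⟨by linarith [hθ.1, Real.pi_pos], hθ2.2⟩
  have hs : 0 < Real.sin θ := Real.sin_pos_of_pos_of_lt_pi hθ.1 (by linarith [hθ2.2, Real.pi_pos])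
  obtain ⟨_, _, hρ⟩ := rho_spec hθ2
  have hρ0 : rho θ = 0 := by unfold rho; rw [if_pos hθ.2]
  have hmem : ∀ r ∈ Ioo (0 : ℝ) 2, Phi r θ ∈ om := fun r hr =>
    (hρ r hr.1 hr.2).2 (by rw [hρ0]; exact hr.1)
  obtain ⟨hd1, hd2, hd3⟩ := path_data hY (γ := fun t => Phi t θ)
    (γ' := fun _ => ((Real.cos θ, Real.sin θ) : ℝ × ℝ))
    (S := Ioo 0 2) (hasDerivAt_rad θ) continuous_const hmem
  have hVpos : ∀ t ∈ Ioo (0 : ℝ) 2, 0 < V m n (Phi t θ) :=
    fun t ht => V_pos m n (hmem t ht).1 (hmem t ht).2.1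
  set F : ℝ → ℝ := fun t => ‖fderiv ℝ Y (Phi t θ) (1, 0)‖ ^ 2 + ‖fderiv ℝ Y (Phi t θ) (0, 1)‖ ^ 2
    with hF
  have hlow : ∫⁻ t in Ioo (0 : ℝ) 2, ENNReal.ofReal (‖Y (Phi t θ)‖ ^ 2 * (t * V m n (Phi t θ))) < ∞ := by
    refine lt_of_le_of_lt ?_ hθfin
    apply le_fib2 measurableSet_Ioo (fun r hr => hr.1)
    intro r hr
    rw [dA_eq (hmem r hr), ← ENNReal.ofReal_mul hr.1.le]
    apply le_of_eq; congr 1; ring
  have hz := zero_left (f := fun t => Y (Phi t θ)) (G := fun t => t * V m n (Phi t θ)) (a := 0)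
    (b := 2)
    (e := fun t => ENNReal.ofReal (F t * (t * V m n (Phi t θ)))) hd1 hd2
    (fun t ht => (mul_pos ht.1 (hVpos t ht)).le)
    (by
      intro s hs' t ht hst
      show t * V m n (Phi t θ) ≤ s * V m n (Phi s θ)
      rw [radial_weight m n hs'.1, radial_weight m n ht.1]
      exact mul_le_mul_of_nonneg_right (zpow_anti' hs'.1 hst (by omega)) (by positivity))
    (by
      intro t ht
      apply ENNReal.ofReal_le_ofReal
      apply mul_le_mul_of_nonneg_right _ (mul_pos ht.1 (hVpos t ht)).le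
      have := hd3 t
      have h1 := Real.sin_sq_add_cos_sq θ
      simp only at this
      have h2 : Real.cos θ ^ 2 + Real.sin θ ^ 2 = 1 := by linarith
      rw [h2, one_mul] at this
      exact this)
    (by
      intro ε hε
      by_contra hcon
      rw [not_frequently] at hcon
      obtain ⟨δ, hδ, hδ2⟩ := (mem_nhdsGT_iff_exists_Ioo_subset).1 hcon
      set δ' := min δ 1 with hδ'
      have hδ'0 : 0 < δ' := lt_min hδ one_pos
      set κ := Real.cos θ ^ (2 * m + 1) * Real.sin θ ^ (2 * n + 1) with hκ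
      have hκ0 : 0 < κ := by rw [hκ]; positivity
      have htop := inv_lintegral_top hδ'0 (show 0 < ε ^ 2 * κ by positivity)
      apply lt_irrefl (∞ : ℝ≥0∞)
      calc (∞ : ℝ≥0∞) = ∫⁻ r in Ioo 0 δ', ENNReal.ofReal (ε ^ 2 * κ * r⁻¹) := htop.symm
        _ ≤ ∫⁻ t in Ioo (0 : ℝ) 2, ENNReal.ofReal (‖Y (Phi t θ)‖ ^ 2 * (t * V m n (Phi t θ))) := by
            apply le_fib2 measurableSet_Ioo
            · intro r hr
              exact ⟨hr.1, lt_of_lt_of_le hr.2 ((min_le_right _ _).trans (by norm_num))⟩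
            · intro r hr
              apply ENNReal.ofReal_le_ofReal
              rw [radial_weight m n hr.1, ← hκ]
              have hr1 : r ≤ 1 := hr.2.le.trans (min_le_right _ _)
              have h1 : ε ≤ ‖Y (Phi r θ)‖ := by
                have := hδ2 ⟨hr.1, lt_of_lt_of_le hr.2 (min_le_left _ _)⟩
                exact not_lt.1 this
              have h2 : r⁻¹ ≤ r ^ (2 * (m + n) + 3) := by
                rw [← zpow_neg_one]
                exact zpow_le_zpow_right_of_le_one₀ hr.1 hr1 (by omega)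
              have h3 : ε ^ 2 ≤ ‖Y (Phi r θ)‖ ^ 2 := pow_le_pow_left₀ hε.le h1 2
              have h4 : 0 < r⁻¹ := inv_pos.2 hr.1
              calc ε ^ 2 * κ * r⁻¹ = ε ^ 2 * (r⁻¹ * κ) := by ring
                _ ≤ ‖Y (Phi r θ)‖ ^ 2 * (r ^ (2 * (m + n) + 3) * κ) := by
                    apply mul_le_mul h3 (mul_le_mul_of_nonneg_right h2 hκ0.le)
                      (by positivity) (by positivity)
        _ < ∞ := hlow)
  calc ∫⁻ r in Ioi (0 : ℝ), ENNReal.ofReal r * R7.indicator (dA m n Y) (Phi r θ)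
      ≤ ∫⁻ t in Ioo (0 : ℝ) 2, ENNReal.ofReal (‖Y (Phi t θ)‖ ^ 2 * (t * V m n (Phi t θ))) := by
        apply fib_le2 measurableSet_Ioo measurableSet_Ioi
        intro r hr
        have hr0 : 0 < r := hr
        by_cases hR : Phi r θ ∈ R7
        · rw [indicator_of_mem hR]
          by_cases ho : Phi r θ ∈ om
          · have hxI : r ∈ Ioo (0 : ℝ) 2 := ⟨hr0, (Phi_mem_angle hr0 hθπ ho).2⟩
            rw [indicator_of_mem hxI, dA_eq ho, ← ENNReal.ofReal_mul hr0.le]
            apply le_of_eq; congr 1; ring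
          · rw [dA_zero ho, mul_zero]; exact zero_le
        · rw [indicator_of_notMem hR, mul_zero]; exact zero_le
    _ ≤ _ := hz
    _ ≤ 4 * ∫⁻ r in Ioi (0 : ℝ), ENNReal.ofReal r * dE m n Y (Phi r θ) := by
        apply mul_le_mul'
        · have : ENNReal.ofReal 4 = 4 := by simp
          rw [← this]
          apply ENNReal.ofReal_le_ofReal
          norm_num
        · apply le_fib2 measurableSet_Ioo (fun r hr => hr.1)
          intro r hr
          rw [dE_eq (hmem r hr), ← ENNReal.ofReal_mul hr.1.le]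
          apply le_of_eq; congr 1; rw [hF]; ring

end H51.Hartogs
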