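import Pool.Agent.H59.Hart.Rad

set_option autoImplicit false

open MeasureTheory Set Filter Topology
open scoped ENNReal NNReal

namespace H51.Hartogs

/-- quasi-concavity of `(1-u)^p u^q` -/
theorem qc_u (p q : ℕ) {u1 u u2 : ℝ} (h1 : 0 < u1) (h2 : u1 ≤ u) (h3 : u ≤ u2) (h4 : u2 < 1) :
    min ((1 - u1) ^ p * u1 ^ q) ((1 - u2) ^ p * u2 ^ q) ≤ (1 - u) ^ p * u ^ q := by
  by_contra hcon
  rw [not_le, lt_min_iff] at hcon
  obtain ⟨ha, hb⟩ := hcon
  have hu0 : 0 < u := by linarith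
  have hu1 : 0 < 1 - u := by linarith
  have hne1 : u1 < u := by
    rcases h2.eq_or_lt with h | h
    · rw [h] at ha; exact absurd ha (lt_irrefl _)
    · exact h
  have hne2 : u < u2 := by
    rcases h3.eq_or_lt with h | h
    · rw [h] at hb; exact absurd hb (lt_irrefl _)
    · exact h
  have hlog : ∀ x, 0 < x → x < 1 →
      Real.log ((1 - x) ^ p * x ^ q) = p * Real.log (1 - x) + q * Real.log x := by
    intro x hx0 hx1
    have : 0 < 1 - x := by linarith
    rw [Real.log_mul (by positivity) (by positivity), Real.log_pow, Real.log_pow]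
  have hpos : 0 < (1 - u) ^ p * u ^ q := by positivity
  have hla := Real.log_lt_log hpos ha
  have hlb := Real.log_lt_log hpos hb
  rw [hlog u hu0 (by linarith), hlog u1 h1 (by linarith)] at hla
  rw [hlog u hu0 (by linarith), hlog u2 (by linarith) h4] at hlb
  have key : ∀ x, 0 < x → x < 1 → (p * Real.log (1 - x) + q * Real.log x) -
      (p * Real.log (1 - u) + q * Real.log u) ≤ (x - u) * (q / u - p / (1 - u)) := by
    intro x hx0 hx1
    have hx1' : 0 < 1 - x := by linarith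
    have e1 : Real.log (1 - x) - Real.log (1 - u) ≤ (1 - x) / (1 - u) - 1 := by
      rw [← Real.log_div hx1'.ne' hu1.ne']
      exact Real.log_le_sub_one_of_pos (by positivity)
    have e2 : Real.log x - Real.log u ≤ x / u - 1 := by
      rw [← Real.log_div hx0.ne' hu0.ne']
      exact Real.log_le_sub_one_of_pos (by positivity)
    have e3 := mul_le_mul_of_nonneg_left e1 (Nat.cast_nonneg p : (0:ℝ) ≤ p)
    have e4 := mul_le_mul_of_nonneg_left e2 (Nat.cast_nonneg q : (0:ℝ) ≤ q)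
    have e5 : (p : ℝ) * ((1 - x) / (1 - u) - 1) + q * (x / u - 1) =
        (x - u) * (q / u - p / (1 - u)) := by
      field_simp
      ring
    linarith
  have k1 := key u1 h1 (by linarith)
  have k2 := key u2 (by linarith) h4
  have k3 : 0 < (u1 - u) * (q / u - p / (1 - u)) := by linarith
  have k4 : 0 < (u2 - u) * (q / u - p / (1 - u)) := by linarith
  have k5 : 0 < (q / u - p / (1 - u) : ℝ) := (mul_pos_iff_of_pos_left (by linarith)).1 k4
  nlinarith

/-- the angular weight -/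
noncomputable def G2 (a b : ℕ) (θ : ℝ) : ℝ := Real.cos θ ^ (2 * a + 1) * Real.sin θ ^ (2 * b + 1)

/-- the radial weight -/
noncomputable def G1 (a b : ℕ) (r : ℝ) : ℝ := r ^ (2 * (a + b) + 3)

theorem weight_split (a b : ℕ) {r θ : ℝ} (hr : 0 < r) :
    r * V a b (Phi r θ) = G1 a b r * G2 a b θ := by
  rw [radial_weight _ _ hr]
  unfold G1 G2
  have e1 : (2 * ((a : ℤ) + b) + 3) = ((2 * (a + b) + 3 : ℕ) : ℤ) := by push_cast; ring
  have e2 : (2 * (a : ℤ) + 1) = ((2 * a + 1 : ℕ) : ℤ) := by push_cast; ring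
  have e3 : (2 * (b : ℤ) + 1) = ((2 * b + 1 : ℕ) : ℤ) := by push_cast; ring
  rw [e1, e2, e3, zpow_natCast, zpow_natCast, zpow_natCast]

theorem G2_qc (a b : ℕ) : ∀ s ∈ Ioo 0 (Real.pi / 2), ∀ t ∈ Ioo 0 (Real.pi / 2), ∀ r ∈ Icc s t,
    min (G2 a b s) (G2 a b t) ≤ G2 a b r := by
  intro s hs t ht r hr
  have hpi := Real.pi_pos
  have hr' : r ∈ Ioo 0 (Real.pi / 2) := ⟨lt_of_lt_of_le hs.1 hr.1, lt_of_le_of_lt hr.2 ht.2⟩
  have hsin : ∀ t ∈ Ioo 0 (Real.pi / 2), 0 < Real.sin t := fun t ht =>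
    Real.sin_pos_of_pos_of_lt_pi ht.1 (by linarith [ht.2])
  have hcos : ∀ t ∈ Ioo 0 (Real.pi / 2), 0 < Real.cos t := fun t ht =>
    Real.cos_pos_of_mem_Ioo ⟨by linarith [ht.1], ht.2⟩
  have hsinm : ∀ s ∈ Ioo 0 (Real.pi / 2), ∀ t ∈ Ioo 0 (Real.pi / 2), s ≤ t →
      Real.sin s ≤ Real.sin t := fun s hs t ht hst =>
    Real.sin_le_sin_of_le_of_le_pi_div_two (by linarith [hs.1]) ht.2.le hst
  have hsq : ∀ t, Real.cos t ^ 2 = 1 - Real.sin t ^ 2 := fun t => by
    have := Real.sin_sq_add_cos_sq t; linarith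
  have hG : ∀ t, G2 a b t ^ 2 = (1 - Real.sin t ^ 2) ^ (2 * a + 1) * (Real.sin t ^ 2) ^ (2 * b + 1) := by
    intro t
    rw [← hsq, G2, mul_pow, ← pow_mul, ← pow_mul, ← pow_mul, ← pow_mul]
    congr 2 <;> ring
  have hGpos : ∀ t ∈ Ioo 0 (Real.pi / 2), 0 < G2 a b t := fun t ht => by
    have := hsin t ht
    have := hcos t ht
    unfold G2; positivity
  have hq := qc_u (2 * a + 1) (2 * b + 1) (u1 := Real.sin s ^ 2) (u := Real.sin r ^ 2)
    (u2 := Real.sin t ^ 2) (by have := hsin s hs; positivity)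
    (pow_le_pow_left₀ (hsin s hs).le (hsinm s hs r hr' hr.1) 2)
    (pow_le_pow_left₀ (hsin r hr').le (hsinm r hr' t ht hr.2) 2)
    (by have := hcos t ht; have := hsq t; nlinarith)
  rw [← hG, ← hG, ← hG] at hq
  rcases min_le_iff.1 hq with h | h
  · exact (min_le_left _ _).trans (le_of_sq_le_sq h (hGpos r hr').le)
  · exact (min_le_right _ _).trans (le_of_sq_le_sq h (hGpos r hr').le)

theorem wm_finite {G : ℝ → ℝ} {a b M : ℝ} (h : ∀ t ∈ Ioo a b, G t ≤ M) :
    IsFiniteMeasure (wm G a b) := by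
  refine ⟨?_⟩
  rw [wm_univ]
  calc ∫⁻ t in Ioo a b, ENNReal.ofReal (G t) ≤ ∫⁻ t in Ioo a b, ENNReal.ofReal M :=
        setLIntegral_mono' measurableSet_Ioo (fun t ht => ENNReal.ofReal_le_ofReal (h t ht))
    _ = ENNReal.ofReal M * ENNReal.ofReal (b - a) := by rw [setLIntegral_const, Real.volume_Ioo]
    _ < ∞ := ENNReal.mul_lt_top ENNReal.ofReal_lt_top ENNReal.ofReal_lt_top

theorem wm_ne_zero {G : ℝ → ℝ} {a b : ℝ} (hab : a < b) (hG : Measurable G)
    (h : ∀ t ∈ Ioo a b, 0 < G t) : wm G a b ≠ 0 := by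
  intro h0
  have h1 : wm G a b univ = 0 := by rw [h0]; rfl
  rw [wm_univ] at h1
  have h2 : 0 < ∫⁻ t in Ioo a b, ENNReal.ofReal (G t) := by
    rw [setLIntegral_pos_iff hG.ennreal_ofReal]
    have : Function.support (fun t => ENNReal.ofReal (G t)) ∩ Ioo a b = Ioo a b := by
      apply inter_eq_right.2
      intro t ht
      rw [Function.mem_support]
      exact (ENNReal.ofReal_pos.2 (h t ht)).ne'
    rw [this, Real.volume_Ioo]
    exact ENNReal.ofReal_pos.2 (by linarith)
  rw [h1] at h2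
  exact lt_irrefl _ h2

theorem wm_ae {G : ℝ → ℝ} {a b : ℝ} {P : ℝ → Prop} (h : ∀ t ∈ Ioo a b, P t) :
    ∀ᵐ t ∂(wm G a b), P t := by
  unfold wm
  exact (withDensity_absolutelyContinuous _ _).ae_le (ae_restrict_of_forall_mem measurableSet_Ioo h)

theorem L8 (a b : ℕ) {Y : ℝ × ℝ → ℂ} (hY : ContDiffOn ℝ 1 Y om) (hYm : Measurable Y) :
    ∃ c : ℂ, ∫⁻ p, R3.indicator (dA a b (fun p => Y p - c)) p ≤ 68 * ∫⁻ p, dE a b Y p := by
  have hpi := Real.pi_pos
  have hpi4 := Real.pi_lt_four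
  have h22 : (√2 : ℝ) ^ 2 = 2 := Real.sq_sqrt (by norm_num)
  have h2pos : 0 < (√2 : ℝ) := by positivity
  have h2lt : (√2 : ℝ) < 2 := by nlinarith
  have h2gt : 1 < (√2 : ℝ) := by nlinarith
  have hmE : Measurable (dE a b Y) := measurable_dE hY
  have hG1m : Measurable (G1 a b) := by
    have : Continuous (G1 a b) := by unfold G1; fun_prop
    exact this.measurable
  have hG2m : Measurable (G2 a b) := by
    have : Continuous (G2 a b) := by unfold G2; fun_prop
    exact this.measurable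
  have hsin : ∀ t ∈ Ioo 0 (Real.pi / 2), 0 < Real.sin t := fun t ht =>
    Real.sin_pos_of_pos_of_lt_pi ht.1 (by linarith [ht.2])
  have hcos : ∀ t ∈ Ioo 0 (Real.pi / 2), 0 < Real.cos t := fun t ht =>
    Real.cos_pos_of_mem_Ioo ⟨by linarith [ht.1], ht.2⟩
  have hG1pos : ∀ t ∈ Ioo (√2) 2, 0 < G1 a b t := fun t ht => by
    have : 0 < t := lt_trans h2pos ht.1
    unfold G1; positivity
  have hG2pos : ∀ t ∈ Ioo 0 (Real.pi / 2), 0 < G2 a b t := fun t ht => by
    have := hsin t ht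
    have := hcos t ht
    unfold G2; positivity
  set μ := wm (G1 a b) (√2) 2 with hμ
  set ν := wm (G2 a b) 0 (Real.pi / 2) with hν
  have hμf : IsFiniteMeasure μ := by
    apply wm_finite (M := 2 ^ (2 * (a + b) + 3))
    intro t ht
    exact pow_le_pow_left₀ (by linarith [ht.1]) ht.2.le _
  have hνf : IsFiniteMeasure ν := by
    apply wm_finite (M := 1)
    intro t ht
    unfold G2
    exact mul_le_one₀ (pow_le_one₀ (hcos t ht).le (Real.cos_le_one t))
      (pow_nonneg (hsin t ht).le _) (pow_le_one₀ (hsin t ht).le (Real.sin_le_one t))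
  have hμ0 : μ ≠ 0 := wm_ne_zero h2lt hG1m hG1pos
  have hν0 : ν ≠ 0 := wm_ne_zero (by positivity) hG2m hG2pos
  set F : ℝ × ℝ → ℝ := fun q => ‖fderiv ℝ Y (Phi q.1 q.2) (1, 0)‖ ^ 2 +
    ‖fderiv ℝ Y (Phi q.1 q.2) (0, 1)‖ ^ 2 with hF
  have hF0 : ∀ q, 0 ≤ F q := fun q => by rw [hF]; positivity
  have hFm : Measurable F := by
    have h1 : ∀ w : ℝ × ℝ, Measurable (fun q : ℝ × ℝ => ‖fderiv ℝ Y (Phi q.1 q.2) w‖ ^ 2) :=
      fun w => (((measurable_fderiv_apply_const ℝ Y w).comp measurable_Phi).norm.pow_const 2)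
    exact (h1 _).add (h1 _)
  have hfm : Measurable (fun q : ℝ × ℝ => Y (Phi q.1 q.2)) := hYm.comp measurable_Phi
  have hmem : ∀ r ∈ Ioo (√2) 2, ∀ θ ∈ Ioo 0 (Real.pi / 2), Phi r θ ∈ om := by
    intro r hr θ hθ
    exact Phi_mem_ring (lt_trans h2pos hr.1) (by nlinarith [hr.1]) hr.2 hθ
  -- energies
  set e1 : ℝ → ℝ≥0∞ := fun θ => 2 * ENNReal.ofReal ((2 - √2) ^ 2) *
    ∫⁻ r in Ioo (√2) 2, ENNReal.ofReal (F (r, θ) * G1 a b r) with he1
  set e2 : ℝ → ℝ≥0∞ := fun r => 2 * ENNReal.ofReal ((Real.pi / 2 - 0) ^ 2) *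
    ∫⁻ θ in Ioo 0 (Real.pi / 2), 4 * ENNReal.ofReal (F (r, θ) * G2 a b θ) with he2
  have hin1 : Measurable (fun θ => ∫⁻ r in Ioo (√2) 2, ENNReal.ofReal (F (r, θ) * G1 a b r)) := by
    apply Measurable.lintegral_prod_left' (f := fun q : ℝ × ℝ => ENNReal.ofReal (F q * G1 a b q.1))
    exact (hFm.mul (hG1m.comp measurable_fst)).ennreal_ofReal
  have hin2 : Measurable (fun r => ∫⁻ θ in Ioo 0 (Real.pi / 2),
      4 * ENNReal.ofReal (F (r, θ) * G2 a b θ)) := by
    apply Measurable.lintegral_prod_right'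
      (f := fun q : ℝ × ℝ => 4 * ENNReal.ofReal (F q * G2 a b q.2))
    exact ((hFm.mul (hG2m.comp measurable_snd)).ennreal_ofReal).const_mul 4
  have he2m : Measurable e2 := hin2.const_mul _
  have H1 : ∀ᵐ θ ∂ν, ∫⁻ s', ∫⁻ s, ENNReal.ofReal (‖Y (Phi s θ) - Y (Phi s' θ)‖ ^ 2) ∂μ ∂μ ≤
      μ univ * e1 θ := by
    apply wm_ae
    intro θ hθ
    obtain ⟨hd1, hd2, hd3⟩ := path_data hY (γ := fun t => Phi t θ)
      (γ' := fun _ => ((Real.cos θ, Real.sin θ) : ℝ × ℝ))
      (S := Ioo (√2) 2) (hasDerivAt_rad θ) continuous_const (fun r hr => hmem r hr θ hθ)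
    have hfθ : Measurable (fun t => Y (Phi t θ)) := by
      have : Measurable (fun t : ℝ => Phi t θ) := by
        have : Continuous (fun t : ℝ => Phi t θ) := by unfold Phi; fun_prop
        exact this.measurable
      exact hYm.comp this
    have := double (f := fun t => Y (Phi t θ)) (G := G1 a b) (a := √2) (b := 2)
      (e := fun r => ENNReal.ofReal (F (r, θ) * G1 a b r)) h2lt hfθ hG1m hd1 hd2
      (fun t ht => (hG1pos t ht).le)
      (by
        intro s hs t ht r hr
        refine (min_le_left _ _).trans ?_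
        unfold G1
        exact pow_le_pow_left₀ (by linarith [hs.1]) hr.1 _)
      (by
        intro t ht
        apply ENNReal.ofReal_le_ofReal
        apply mul_le_mul_of_nonneg_right _ (hG1pos t ht).le
        have := hd3 t
        have h1 := Real.sin_sq_add_cos_sq θ
        simp only at this
        have h2 : Real.cos θ ^ 2 + Real.sin θ ^ 2 = 1 := by linarith
        rw [h2, one_mul] at this
        exact this)
    refine le_trans (le_of_eq ?_) this
    apply lintegral_congr; intro s'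
    apply lintegral_congr; intro s
    rw [norm_sub_rev]
  have H2 : ∀ᵐ r ∂μ, ∫⁻ t', ∫⁻ t, ENNReal.ofReal (‖Y (Phi r t) - Y (Phi r t')‖ ^ 2) ∂ν ∂ν ≤
      ν univ * e2 r := by
    apply wm_ae
    intro r hr
    have hr0 : 0 < r := lt_trans h2pos hr.1
    obtain ⟨hd1, hd2, hd3⟩ := path_data hY (γ := fun t => Phi r t)
      (γ' := fun t => ((-(r * Real.sin t), r * Real.cos t) : ℝ × ℝ))
      (S := Ioo 0 (Real.pi / 2)) (hasDerivAt_arc r) (by fun_prop) (fun θ hθ => hmem r hr θ hθ)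
    have hfr : Measurable (fun t => Y (Phi r t)) := by
      have : Measurable (fun t : ℝ => Phi r t) := by
        have : Continuous (fun t : ℝ => Phi r t) := by unfold Phi; fun_prop
        exact this.measurable
      exact hYm.comp this
    have := double (f := fun t => Y (Phi r t)) (G := G2 a b) (a := 0) (b := Real.pi / 2)
      (e := fun t => 4 * ENNReal.ofReal (F (r, t) * G2 a b t)) (by positivity) hfr hG2m hd1 hd2
      (fun t ht => (hG2pos t ht).le) (G2_qc a b)
      (by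
        intro t ht
        have h4 : (4 : ℝ≥0∞) = ENNReal.ofReal 4 := by simp
        have h5 : 4 * (F (r, t) * G2 a b t) = (4 * F (r, t)) * G2 a b t := by ring
        rw [h4, ← ENNReal.ofReal_mul (by norm_num), h5]
        apply ENNReal.ofReal_le_ofReal
        apply mul_le_mul_of_nonneg_right _ (hG2pos t ht).le
        refine (hd3 t).trans ?_
        apply mul_le_mul_of_nonneg_right _ (hF0 (r, t))
        have h6 := Real.sin_sq_add_cos_sq t
        have h7 : (-(r * Real.sin t)) ^ 2 + (r * Real.cos t) ^ 2 = r ^ 2 := by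
          calc (-(r * Real.sin t)) ^ 2 + (r * Real.cos t) ^ 2
              = r ^ 2 * (Real.sin t ^ 2 + Real.cos t ^ 2) := by ring
            _ = r ^ 2 := by rw [h6, mul_one]
        simp only
        rw [h7]
        nlinarith [hr.2])
    refine le_trans (le_of_eq ?_) this
    apply lintegral_congr; intro s'
    apply lintegral_congr; intro s
    rw [norm_sub_rev]
  obtain ⟨c, hc⟩ := tensor hμ0 hν0 hfm he2m H1 H2
  refine ⟨c, ?_⟩
  have hYc : ContDiffOn ℝ 1 (fun p => Y p - c) om := hY.sub contDiffOn_const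
  have hmP : Measurable (R3.indicator (dA a b (fun p => Y p - c))) :=
    (measurable_dA hYc).indicator meas_R3
  -- the three integrals in polar coordinates
  have hlhs : ∫⁻ p, R3.indicator (dA a b (fun p => Y p - c)) p ≤
      ∫⁻ t, ∫⁻ s, ENNReal.ofReal (‖Y (Phi s t) - c‖ ^ 2) ∂μ ∂ν := by
    have hm1 : ∀ t, Measurable (fun s => ENNReal.ofReal (‖Y (Phi s t) - c‖ ^ 2)) := by
      intro t
      have : Measurable (fun s : ℝ => Phi s t) := by
        have : Continuous (fun s : ℝ => Phi s t) := by unfold Phi; fun_prop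
        exact this.measurable
      exact (((hYm.comp this).sub measurable_const).norm.pow_const 2).ennreal_ofReal
    have hm2 : Measurable (fun t => ∫⁻ s, ENNReal.ofReal (‖Y (Phi s t) - c‖ ^ 2) ∂μ) := by
      apply Measurable.lintegral_prod_left'
        (f := fun q : ℝ × ℝ => ENNReal.ofReal (‖Y (Phi q.1 q.2) - c‖ ^ 2))
      exact ((hfm.sub measurable_const).norm.pow_const 2).ennreal_ofReal
    rw [hν, lintegral_wm hG2m _ _ hm2, pol_θ hmP]
    apply fib_le2 measurableSet_Ioo measurableSet_Ioo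
    intro θ hθπ
    by_cases hθ : θ ∈ Ioo 0 (Real.pi / 2)
    · rw [indicator_of_mem hθ, hμ, lintegral_wm hG1m _ _ (hm1 θ),
        ← lintegral_const_mul' _ _ ENNReal.ofReal_ne_top]
      apply fib_le2 measurableSet_Ioo measurableSet_Ioi
      intro r hr
      have hr0 : 0 < r := hr
      by_cases hR : Phi r θ ∈ R3
      · rw [indicator_of_mem hR]
        by_cases ho : Phi r θ ∈ om
        · have hr2 := (Phi_mem_angle hr0 hθπ ho).2
          have hrI : r ∈ Ioo (√2) 2 := by
            refine ⟨?_, hr2⟩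
            have := (Phi_R3 r θ).1 hR
            by_contra hcon
            push Not at hcon
            nlinarith
          rw [indicator_of_mem hrI, dA_eq ho, ← ENNReal.ofReal_mul hr0.le,
            ← ENNReal.ofReal_mul (hG1pos r hrI).le, ← ENNReal.ofReal_mul (hG2pos θ hθ).le]
          apply le_of_eq
          congr 1
          have := weight_split a b (θ := θ) hr0
          calc r * (‖Y (Phi r θ) - c‖ ^ 2 * V a b (Phi r θ))
              = ‖Y (Phi r θ) - c‖ ^ 2 * (r * V a b (Phi r θ)) := by ring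
            _ = _ := by rw [this]; ring
        · rw [dA_zero ho, mul_zero]; exact zero_le
      · rw [indicator_of_notMem hR, mul_zero]; exact zero_le
    · rw [indicator_of_notMem hθ]
      apply le_of_eq
      rw [setLIntegral_congr_fun measurableSet_Ioi (g := fun _ => 0)]
      · simp
      · intro r hr
        by_cases hR : Phi r θ ∈ R3
        · simp only
          rw [indicator_of_mem hR]
          have : Phi r θ ∉ om := by
            intro ho
            exact hθ (Phi_mem_angle hr hθπ ho).1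
          rw [dA_zero this, mul_zero]
        · simp only
          rw [indicator_of_notMem hR, mul_zero]
  have hle1 : 2 * ENNReal.ofReal ((2 - √2) ^ 2) ≤ 2 := by
    have : ENNReal.ofReal ((2 - √2) ^ 2) ≤ 1 := by
      rw [← ENNReal.ofReal_one]
      exact ENNReal.ofReal_le_ofReal (by nlinarith)
    calc 2 * ENNReal.ofReal ((2 - √2) ^ 2) ≤ 2 * 1 := mul_le_mul' le_rfl this
      _ = 2 := mul_one _
  have hle2 : 2 * ENNReal.ofReal ((Real.pi / 2 - 0) ^ 2) ≤ 8 := by
    have : ENNReal.ofReal ((Real.pi / 2 - 0) ^ 2) ≤ 4 := by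
      have h4 : (4 : ℝ≥0∞) = ENNReal.ofReal 4 := by simp
      rw [h4]
      exact ENNReal.ofReal_le_ofReal (by nlinarith)
    calc 2 * ENNReal.ofReal ((Real.pi / 2 - 0) ^ 2) ≤ 2 * 4 := mul_le_mul' le_rfl this
      _ = 8 := by norm_num
  have hsubθ : Ioo 0 (Real.pi / 2) ⊆ Ioo (-Real.pi) Real.pi :=
    fun t ht => ⟨by linarith [ht.1], by linarith [ht.2]⟩
  have hI1 : ∫⁻ t, e1 t ∂ν ≤ 2 * ∫⁻ p, dE a b Y p := by
    rw [hν, lintegral_wm hG2m _ _ (hin1.const_mul _), pol_θ hmE,
      ← lintegral_const_mul' _ _ (by simp)]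
    apply le_fib2 measurableSet_Ioo hsubθ
    intro θ hθ
    rw [← mul_assoc, mul_comm (ENNReal.ofReal (G2 a b θ)), mul_assoc]
    apply mul_le_mul' hle1
    rw [← lintegral_const_mul' _ _ ENNReal.ofReal_ne_top]
    apply le_fib2 measurableSet_Ioo (fun r hr => lt_trans h2pos hr.1)
    intro r hr
    have hr0 : 0 < r := lt_trans h2pos hr.1
    rw [dE_eq (hmem r hr θ hθ), ← ENNReal.ofReal_mul (hG2pos θ hθ).le, ← ENNReal.ofReal_mul hr0.le]
    apply le_of_eq
    congr 1
    have := weight_split a b (θ := θ) hr0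
    rw [hF]
    simp only
    calc _ = (‖fderiv ℝ Y (Phi r θ) (1, 0)‖ ^ 2 + ‖fderiv ℝ Y (Phi r θ) (0, 1)‖ ^ 2) *
          (G1 a b r * G2 a b θ) := by ring
      _ = _ := by rw [← this]; ring
  have hI2 : ∫⁻ s, e2 s ∂μ ≤ 32 * ∫⁻ p, dE a b Y p := by
    rw [hμ, lintegral_wm hG1m _ _ he2m, pol_r hmE, ← lintegral_const_mul' _ _ (by simp)]
    apply le_fib2 measurableSet_Ioo (fun r hr => lt_trans h2pos hr.1)
    intro r hr
    have hr0 : 0 < r := lt_trans h2pos hr.1
    rw [he2]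
    simp only
    rw [lintegral_const_mul' _ _ (by simp)]
    calc ENNReal.ofReal (G1 a b r) * (2 * ENNReal.ofReal ((Real.pi / 2 - 0) ^ 2) *
          (4 * ∫⁻ θ in Ioo 0 (Real.pi / 2), ENNReal.ofReal (F (r, θ) * G2 a b θ)))
        = (2 * ENNReal.ofReal ((Real.pi / 2 - 0) ^ 2)) * (4 * (ENNReal.ofReal (G1 a b r) *
          ∫⁻ θ in Ioo 0 (Real.pi / 2), ENNReal.ofReal (F (r, θ) * G2 a b θ))) := by ring
      _ ≤ 8 * (4 * ∫⁻ θ in Ioo (-Real.pi) Real.pi, ENNReal.ofReal r * dE a b Y (Phi r θ)) := by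
          apply mul_le_mul' hle2
          apply mul_le_mul' le_rfl
          rw [← lintegral_const_mul' _ _ ENNReal.ofReal_ne_top]
          apply le_fib2 measurableSet_Ioo hsubθ
          intro θ hθ
          rw [dE_eq (hmem r hr θ hθ), ← ENNReal.ofReal_mul (hG1pos r hr).le,
            ← ENNReal.ofReal_mul hr0.le]
          apply le_of_eq
          congr 1
          have := weight_split a b (θ := θ) hr0
          rw [hF]
          simp only
          calc _ = (‖fderiv ℝ Y (Phi r θ) (1, 0)‖ ^ 2 + ‖fderiv ℝ Y (Phi r θ) (0, 1)‖ ^ 2) *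
                (G1 a b r * G2 a b θ) := by ring
            _ = _ := by rw [← this]; ring
      _ = 32 * ∫⁻ θ in Ioo (-Real.pi) Real.pi, ENNReal.ofReal r * dE a b Y (Phi r θ) := by
          rw [← mul_assoc]; norm_num
  calc ∫⁻ p, R3.indicator (dA a b (fun p => Y p - c)) p
      ≤ ∫⁻ t, ∫⁻ s, ENNReal.ofReal (‖Y (Phi s t) - c‖ ^ 2) ∂μ ∂ν := hlhs
    _ ≤ 2 * ((∫⁻ t, e1 t ∂ν) + ∫⁻ s, e2 s ∂μ) := hc
    _ ≤ 2 * (2 * (∫⁻ p, dE a b Y p) + 32 * ∫⁻ p, dE a b Y p) := by gcongr
    _ = 68 * ∫⁻ p, dE a b Y p := by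
        rw [← add_mul, ← mul_assoc]; norm_num

end H51.Hartogs
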