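import Pool.Agent.H59.Hart.OneD

set_option autoImplicit false

open MeasureTheory Set Filter Topology
open scoped ENNReal NNReal

namespace H51.Hartogs

/-- the weighted measure on an interval -/
noncomputable def wm (G : ℝ → ℝ) (a b : ℝ) : Measure ℝ :=
  (volume.restrict (Ioo a b)).withDensity (fun t => ENNReal.ofReal (G t))

theorem lintegral_wm {G : ℝ → ℝ} (hG : Measurable G) (a b : ℝ) {F : ℝ → ℝ≥0∞} (hF : Measurable F) :
    ∫⁻ t, F t ∂(wm G a b) = ∫⁻ t in Ioo a b, ENNReal.ofReal (G t) * F t := by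
  unfold wm
  rw [lintegral_withDensity_eq_lintegral_mul _ hG.ennreal_ofReal hF]
  rfl

theorem wm_univ (G : ℝ → ℝ) (a b : ℝ) :
    wm G a b univ = ∫⁻ t in Ioo a b, ENNReal.ofReal (G t) := by
  unfold wm
  rw [withDensity_apply _ MeasurableSet.univ, Measure.restrict_univ]

/-- the double integral form of the one-dimensional Poincare inequality -/
theorem double {f f' : ℝ → ℂ} {G : ℝ → ℝ} {a b : ℝ} {e : ℝ → ℝ≥0∞} (hab : a < b)
    (hfm : Measurable f) (hGm : Measurable G)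
    (hf : ∀ t ∈ Ioo a b, HasDerivAt f (f' t) t) (hf' : ContinuousOn f' (Ioo a b))
    (hG0 : ∀ t ∈ Ioo a b, 0 ≤ G t)
    (hq : ∀ s ∈ Ioo a b, ∀ t ∈ Ioo a b, ∀ r ∈ Icc s t, min (G s) (G t) ≤ G r)
    (he : ∀ t ∈ Ioo a b, ENNReal.ofReal (‖f' t‖ ^ 2 * G t) ≤ e t) :
    ∫⁻ s, ∫⁻ t, ENNReal.ofReal (‖f s - f t‖ ^ 2) ∂(wm G a b) ∂(wm G a b) ≤
      (wm G a b univ) * (2 * ENNReal.ofReal ((b - a) ^ 2) * ∫⁻ t in Ioo a b, e t) := by
  set M := ENNReal.ofReal (b - a) * ∫⁻ t in Ioo a b, e t with hM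
  -- ordered version
  have hord : ∀ s ∈ Ioo a b, ∀ t ∈ Ioo a b, s < t →
      ENNReal.ofReal (min (G s) (G t) * ‖f t - f s‖ ^ 2) ≤ M := by
    intro s hs t ht hst
    have hsub : Icc s t ⊆ Ioo a b := fun r hr => ⟨lt_of_lt_of_le hs.1 hr.1, lt_of_le_of_lt hr.2 ht.2⟩
    have h1 := T0 hst (fun r hr => hf r (hsub hr)) (hf'.mono hsub)
      (le_min (hG0 s hs) (hG0 t ht)) (e := e) (by
      intro r hr
      have hr' : r ∈ Ioo a b := hsub (Ioo_subset_Icc_self hr)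
      refine (ENNReal.ofReal_le_ofReal ?_).trans (he r hr')
      exact mul_le_mul_of_nonneg_left (hq s hs t ht r (Ioo_subset_Icc_self hr)) (sq_nonneg _))
    refine h1.trans ?_
    apply mul_le_mul' (ENNReal.ofReal_le_ofReal (by linarith [hs.1, ht.2]))
    exact lintegral_mono_set (fun r hr => hsub (Ioo_subset_Icc_self hr))
  have hsym : ∀ s ∈ Ioo a b, ∀ t ∈ Ioo a b,
      ENNReal.ofReal (min (G s) (G t) * ‖f s - f t‖ ^ 2) ≤ M := by
    intro s hs t ht
    rcases lt_trichotomy s t with h | h | h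
    · rw [norm_sub_rev]; exact hord s hs t ht h
    · rw [h]; simp
    · rw [min_comm]; exact hord t ht s hs h
  have hpt : ∀ s ∈ Ioo a b, ∀ t ∈ Ioo a b,
      ENNReal.ofReal (G t) * (ENNReal.ofReal (‖f s - f t‖ ^ 2) * ENNReal.ofReal (G s)) ≤
      (ENNReal.ofReal (G s) + ENNReal.ofReal (G t)) * M := by
    intro s hs t ht
    have h1 : G t * (‖f s - f t‖ ^ 2 * G s) ≤ (G s + G t) * (min (G s) (G t) * ‖f s - f t‖ ^ 2) := by
      have h2 : G s * G t ≤ (G s + G t) * min (G s) (G t) := by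
        have h3 := hG0 s hs
        have h4 := hG0 t ht
        rcases le_total (G s) (G t) with h | h
        · rw [min_eq_left h]; nlinarith
        · rw [min_eq_right h]; nlinarith
      have := mul_le_mul_of_nonneg_right h2 (sq_nonneg ‖f s - f t‖)
      nlinarith
    rw [← ENNReal.ofReal_mul (sq_nonneg _), ← ENNReal.ofReal_mul (hG0 t ht),
      ← ENNReal.ofReal_add (hG0 s hs) (hG0 t ht)]
    refine (ENNReal.ofReal_le_ofReal h1).trans ?_
    rw [ENNReal.ofReal_mul (add_nonneg (hG0 s hs) (hG0 t ht))]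
    exact mul_le_mul' le_rfl (hsym s hs t ht)
  have hjm : Measurable (fun p : ℝ × ℝ => ENNReal.ofReal (‖f p.1 - f p.2‖ ^ 2)) := by
    apply Measurable.ennreal_ofReal
    exact ((hfm.comp measurable_fst).sub (hfm.comp measurable_snd)).norm.pow_const 2
  have hinner : ∀ s, Measurable (fun t => ENNReal.ofReal (‖f s - f t‖ ^ 2)) :=
    fun s => ((measurable_const.sub hfm).norm.pow_const 2).ennreal_ofReal
  have hGo : Measurable (fun t => ENNReal.ofReal (G t)) := hGm.ennreal_ofReal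
  have houter : Measurable (fun s => ∫⁻ t in Ioo a b, ENNReal.ofReal (G t) *
      ENNReal.ofReal (‖f s - f t‖ ^ 2)) := by
    apply Measurable.lintegral_prod_right'
      (f := fun p : ℝ × ℝ => ENNReal.ofReal (G p.2) * ENNReal.ofReal (‖f p.1 - f p.2‖ ^ 2))
    exact (hGo.comp measurable_snd).mul hjm
  have e1 : ∀ s, ∫⁻ t, ENNReal.ofReal (‖f s - f t‖ ^ 2) ∂(wm G a b) =
      ∫⁻ t in Ioo a b, ENNReal.ofReal (G t) * ENNReal.ofReal (‖f s - f t‖ ^ 2) :=
    fun s => lintegral_wm hGm a b (hinner s)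
  simp only [e1]
  rw [lintegral_wm hGm a b houter, wm_univ]
  set g := ∫⁻ t in Ioo a b, ENNReal.ofReal (G t) with hg
  calc ∫⁻ s in Ioo a b, ENNReal.ofReal (G s) *
        ∫⁻ t in Ioo a b, ENNReal.ofReal (G t) * ENNReal.ofReal (‖f s - f t‖ ^ 2)
      = ∫⁻ s in Ioo a b, ∫⁻ t in Ioo a b, ENNReal.ofReal (G t) *
          (ENNReal.ofReal (‖f s - f t‖ ^ 2) * ENNReal.ofReal (G s)) := by
        apply lintegral_congr
        intro s
        rw [← lintegral_const_mul' _ _ ENNReal.ofReal_ne_top]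
        apply lintegral_congr
        intro t; ring
    _ ≤ ∫⁻ s in Ioo a b, ∫⁻ t in Ioo a b, (ENNReal.ofReal (G s) + ENNReal.ofReal (G t)) * M := by
        apply setLIntegral_mono' measurableSet_Ioo
        intro s hs
        apply setLIntegral_mono' measurableSet_Ioo
        intro t ht
        exact hpt s hs t ht
    _ = ∫⁻ s in Ioo a b, (ENNReal.ofReal (G s) * ENNReal.ofReal (b - a) + g) * M := by
        apply lintegral_congr
        intro s
        have hm : Measurable (fun t => ENNReal.ofReal (G s) + ENNReal.ofReal (G t)) :=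
          measurable_const.add hGo
        rw [lintegral_mul_const _ hm, lintegral_add_left measurable_const,
          setLIntegral_const, Real.volume_Ioo]
    _ = (g * ENNReal.ofReal (b - a) + g * ENNReal.ofReal (b - a)) * M := by
        have hm : Measurable (fun s => ENNReal.ofReal (G s) * ENNReal.ofReal (b - a) + g) :=
          (hGo.mul_const _).add_const _
        rw [lintegral_mul_const _ hm,
          lintegral_add_right _ measurable_const, setLIntegral_const, Real.volume_Ioo,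
          lintegral_mul_const _ hGo]
    _ = _ := by
        rw [hM, pow_two, ENNReal.ofReal_mul (by linarith)]; ring

/-- tensorisation -/
theorem tensor {μ ν : Measure ℝ} [IsFiniteMeasure μ] [IsFiniteMeasure ν] (hμ : μ ≠ 0) (hν : ν ≠ 0)
    {f : ℝ × ℝ → ℂ} (hf : Measurable f) {e1 e2 : ℝ → ℝ≥0∞} (he2 : Measurable e2)
    (H1 : ∀ᵐ t ∂ν, ∫⁻ s', ∫⁻ s, ENNReal.ofReal (‖f (s, t) - f (s', t)‖ ^ 2) ∂μ ∂μ ≤ μ univ * e1 t)
    (H2 : ∀ᵐ s ∂μ, ∫⁻ t', ∫⁻ t, ENNReal.ofReal (‖f (s, t) - f (s, t')‖ ^ 2) ∂ν ∂ν ≤ ν univ * e2 s) :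
    ∃ c : ℂ, ∫⁻ t, ∫⁻ s, ENNReal.ofReal (‖f (s, t) - c‖ ^ 2) ∂μ ∂ν ≤
      2 * ((∫⁻ t, e1 t ∂ν) + ∫⁻ s, e2 s ∂μ) := by
  have hμ0 : μ univ ≠ 0 := by rwa [Ne, Measure.measure_univ_eq_zero]
  have hν0 : ν univ ≠ 0 := by rwa [Ne, Measure.measure_univ_eq_zero]
  have hμt : μ univ ≠ ∞ := measure_ne_top _ _
  have hνt : ν univ ≠ ∞ := measure_ne_top _ _
  -- joint measurability
  have hj1 : Measurable (fun q : (ℝ × ℝ) × ℝ =>
      ENNReal.ofReal (‖f (q.2, q.1.2) - f (q.1.1, q.1.2)‖ ^ 2)) := by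
    apply Measurable.ennreal_ofReal
    refine Measurable.pow_const (Measurable.norm (Measurable.sub ?_ ?_)) 2
    · exact hf.comp (measurable_snd.prodMk (measurable_snd.comp measurable_fst))
    · exact hf.comp ((measurable_fst.comp measurable_fst).prodMk (measurable_snd.comp measurable_fst))
  have hj2 : Measurable (fun q : ℝ × ℝ =>
      ∫⁻ s, ENNReal.ofReal (‖f (s, q.2) - f (q.1, q.2)‖ ^ 2) ∂μ) :=
    Measurable.lintegral_prod_right' (f := fun q : (ℝ × ℝ) × ℝ =>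
      ENNReal.ofReal (‖f (q.2, q.1.2) - f (q.1.1, q.1.2)‖ ^ 2)) hj1
  have hj3 : Measurable (fun s' : ℝ =>
      ∫⁻ t, ∫⁻ s, ENNReal.ofReal (‖f (s, t) - f (s', t)‖ ^ 2) ∂μ ∂ν) :=
    Measurable.lintegral_prod_right' (f := fun q : ℝ × ℝ =>
      ∫⁻ s, ENNReal.ofReal (‖f (s, q.2) - f (q.1, q.2)‖ ^ 2) ∂μ) hj2
  set K : ℝ → ℝ≥0∞ := fun s' =>
    (∫⁻ t, ∫⁻ s, ENNReal.ofReal (‖f (s, t) - f (s', t)‖ ^ 2) ∂μ ∂ν) + μ univ * e2 s' with hK
  have hKint : ∫⁻ s', K s' ∂μ ≤ μ univ * ((∫⁻ t, e1 t ∂ν) + ∫⁻ s, e2 s ∂μ) := by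
    rw [hK, lintegral_add_left hj3, lintegral_const_mul _ he2, mul_add]
    apply add_le_add _ le_rfl
    rw [lintegral_lintegral_swap hj2.aemeasurable]
    calc ∫⁻ t, ∫⁻ s', ∫⁻ s, ENNReal.ofReal (‖f (s, t) - f (s', t)‖ ^ 2) ∂μ ∂μ ∂ν
        ≤ ∫⁻ t, μ univ * e1 t ∂ν := lintegral_mono_ae H1
      _ = μ univ * ∫⁻ t, e1 t ∂ν := lintegral_const_mul' _ _ hμt
  obtain ⟨s', hs'N, hs'K⟩ := exists_notMem_null_le_laverage hμ
    (hj3.add (he2.const_mul _)).aemeasurable (ae_iff.1 H2)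
  have hs'K' : K s' ≤ (∫⁻ t, e1 t ∂ν) + ∫⁻ s, e2 s ∂μ := by
    refine hs'K.trans ?_
    rw [laverage_eq]
    apply ENNReal.div_le_of_le_mul
    rw [mul_comm]; exact hKint
  have hs'2 : ∫⁻ t', ∫⁻ t, ENNReal.ofReal (‖f (s', t) - f (s', t')‖ ^ 2) ∂ν ∂ν ≤ ν univ * e2 s' := by
    by_contra hcon
    exact hs'N hcon
  have hj4 : Measurable (fun t' : ℝ => ∫⁻ t, ENNReal.ofReal (‖f (s', t) - f (s', t')‖ ^ 2) ∂ν) := by
    apply Measurable.lintegral_prod_right' (f := fun q : ℝ × ℝ =>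
      ENNReal.ofReal (‖f (s', q.2) - f (s', q.1)‖ ^ 2))
    apply Measurable.ennreal_ofReal
    refine Measurable.pow_const (Measurable.norm (Measurable.sub ?_ ?_)) 2
    · exact hf.comp (measurable_const.prodMk measurable_snd)
    · exact hf.comp (measurable_const.prodMk measurable_fst)
  obtain ⟨t', ht'⟩ := exists_le_laverage hν hj4.aemeasurable
  have ht'2 : ∫⁻ t, ENNReal.ofReal (‖f (s', t) - f (s', t')‖ ^ 2) ∂ν ≤ e2 s' := by
    refine ht'.trans ?_
    rw [laverage_eq]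
    apply ENNReal.div_le_of_le_mul
    rw [mul_comm]; exact hs'2
  refine ⟨f (s', t'), ?_⟩
  have hpt : ∀ s t, ENNReal.ofReal (‖f (s, t) - f (s', t')‖ ^ 2) ≤
      2 * ENNReal.ofReal (‖f (s, t) - f (s', t)‖ ^ 2) +
      2 * ENNReal.ofReal (‖f (s', t) - f (s', t')‖ ^ 2) := by
    intro s t
    have h2' : ∀ x : ℝ, ENNReal.ofReal (2 * x) = 2 * ENNReal.ofReal x := by
      intro x
      rw [ENNReal.ofReal_mul (by norm_num)]; simp
    rw [← h2', ← h2', ← ENNReal.ofReal_add (by positivity) (by positivity)]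
    apply ENNReal.ofReal_le_ofReal
    have h5 : ‖f (s, t) - f (s', t')‖ ≤ ‖f (s, t) - f (s', t)‖ + ‖f (s', t) - f (s', t')‖ :=
      norm_sub_le_norm_sub_add_norm_sub _ _ _
    have := pow_le_pow_left₀ (norm_nonneg _) h5 2
    nlinarith [sq_nonneg (‖f (s, t) - f (s', t)‖ - ‖f (s', t) - f (s', t')‖)]
  have hm5 : Measurable (fun t => ENNReal.ofReal (‖f (s', t) - f (s', t')‖ ^ 2)) := by
    apply Measurable.ennreal_ofReal
    refine Measurable.pow_const (Measurable.norm (Measurable.sub ?_ measurable_const)) 2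
    exact hf.comp (measurable_prodMk_left (x := s'))
  have hm6 : Measurable (fun t => ∫⁻ s, ENNReal.ofReal (‖f (s, t) - f (s', t)‖ ^ 2) ∂μ) := by
    apply Measurable.lintegral_prod_right' (f := fun q : ℝ × ℝ =>
      ENNReal.ofReal (‖f (q.2, q.1) - f (s', q.1)‖ ^ 2))
    apply Measurable.ennreal_ofReal
    refine Measurable.pow_const (Measurable.norm (Measurable.sub ?_ ?_)) 2
    · exact hf.comp (measurable_snd.prodMk measurable_fst)
    · exact hf.comp (measurable_const.prodMk measurable_fst)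
  calc ∫⁻ t, ∫⁻ s, ENNReal.ofReal (‖f (s, t) - f (s', t')‖ ^ 2) ∂μ ∂ν
      ≤ ∫⁻ t, ∫⁻ s, (2 * ENNReal.ofReal (‖f (s, t) - f (s', t)‖ ^ 2) +
          2 * ENNReal.ofReal (‖f (s', t) - f (s', t')‖ ^ 2)) ∂μ ∂ν := by
        apply lintegral_mono; intro t
        apply lintegral_mono; intro s
        exact hpt s t
    _ = ∫⁻ t, (2 * (∫⁻ s, ENNReal.ofReal (‖f (s, t) - f (s', t)‖ ^ 2) ∂μ) +
          2 * (μ univ * ENNReal.ofReal (‖f (s', t) - f (s', t')‖ ^ 2))) ∂ν := by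
        apply lintegral_congr; intro t
        rw [lintegral_add_right _ measurable_const, lintegral_const_mul' _ _ (by simp),
          lintegral_const]
        ring
    _ = 2 * (∫⁻ t, ∫⁻ s, ENNReal.ofReal (‖f (s, t) - f (s', t)‖ ^ 2) ∂μ ∂ν) +
          2 * (μ univ * ∫⁻ t, ENNReal.ofReal (‖f (s', t) - f (s', t')‖ ^ 2) ∂ν) := by
        rw [lintegral_add_left (hm6.const_mul 2), lintegral_const_mul _ hm6,
          lintegral_const_mul _ (hm5.const_mul _), lintegral_const_mul _ hm5]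
    _ ≤ 2 * (∫⁻ t, ∫⁻ s, ENNReal.ofReal (‖f (s, t) - f (s', t)‖ ^ 2) ∂μ ∂ν) +
          2 * (μ univ * e2 s') := by gcongr
    _ = 2 * K s' := by rw [hK]; ring
    _ ≤ _ := by gcongr

end H51.Hartogs
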